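import Pool.Agent.H658.MT.Wot

/-! # Measurable Gram-Schmidt -/

set_option autoImplicit false
set_option linter.unusedSectionVars false

open Set Filter Topology
open scoped InnerProductSpace ComplexConjugate

namespace Pool.Agent.H658.MT

universe u v

section simple

variable {X : Type*} [MeasurableSpace X] {K : X → Type u} [∀ x, NormedAddCommGroup (K x)]
  [∀ x, InnerProductSpace ℂ (K x)] (ξ : ∀ x, ℕ → K x)

/-- vector fields which are measurable combinations of the given ones -/
inductive Simple : (∀ x, K x) → Prop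
  | base (n : ℕ) : Simple (fun x => ξ x n)
  | add {v w : ∀ x, K x} : Simple v → Simple w → Simple (fun x => v x + w x)
  | smul {c : X → ℂ} {v : ∀ x, K x} : Measurable c → Simple v → Simple (fun x => c x • v x)

variable {ξ}

theorem Simple.zero : Simple ξ (fun _ => 0) := by
  have h := Simple.smul (ξ := ξ) (c := fun _ => 0) measurable_const (Simple.base 0)
  simpa using h

theorem Simple.sub {v w : ∀ x, K x} (hv : Simple ξ v) (hw : Simple ξ w) :
    Simple ξ (fun x => v x - w x) := by
  have h := hv.add (Simple.smul (c := fun _ => (-1 : ℂ)) measurable_const hw)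
  simpa [sub_eq_add_neg] using h

theorem Simple.sum {ι : Type*} (s : Finset ι) {v : ι → ∀ x, K x}
    (hv : ∀ i ∈ s, Simple ξ (v i)) : Simple ξ (fun x => ∑ i ∈ s, v i x) := by
  classical
  induction s using Finset.induction_on with
  | empty => simpa using Simple.zero
  | insert i s hi ih =>
    simp only [Finset.sum_insert hi]
    exact (hv i (Finset.mem_insert_self _ _)).add (ih fun j hj => hv j (Finset.mem_insert_of_mem hj))

theorem Simple.inner (hG : ∀ m n, Measurable fun x => ⟪ξ x m, ξ x n⟫_ℂ) {v w : ∀ x, K x}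
    (hv : Simple ξ v) (hw : Simple ξ w) : Measurable fun x => ⟪v x, w x⟫_ℂ := by
  have h1 : ∀ n, Measurable fun x => ⟪ξ x n, w x⟫_ℂ := by
    intro n
    induction hw with
    | base m => exact hG n m
    | add _ _ ih1 ih2 => simp only [inner_add_right]; exact ih1.add ih2
    | smul hc _ ih => simp only [inner_smul_right]; exact hc.mul ih
  induction hv with
  | base n => exact h1 n
  | add _ _ ih1 ih2 => simp only [inner_add_left]; exact ih1.add ih2
  | smul hc _ ih =>
    simp only [inner_smul_left]
    exact (Complex.continuous_conj.measurable.comp hc).mul ih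

theorem Simple.norm (hG : ∀ m n, Measurable fun x => ⟪ξ x m, ξ x n⟫_ℂ) {v : ∀ x, K x}
    (hv : Simple ξ v) : Measurable fun x => ‖v x‖ := by
  have h1 : (fun x => ‖v x‖) = fun x => Real.sqrt (Complex.re ⟪v x, v x⟫_ℂ) := by
    funext x
    exact norm_eq_sqrt_re_inner (𝕜 := ℂ) (v x)
  rw [h1]
  exact (Complex.measurable_re.comp (hv.inner hG hv)).sqrt

theorem Simple.gramSchmidt (hG : ∀ m n, Measurable fun x => ⟪ξ x m, ξ x n⟫_ℂ) (n : ℕ) :
    Simple ξ (fun x => InnerProductSpace.gramSchmidt ℂ (ξ x) n) := by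
  induction n using Nat.strong_induction_on with
  | _ n ih =>
    have h1 : (fun x => InnerProductSpace.gramSchmidt ℂ (ξ x) n) = fun x => ξ x n -
        ∑ i ∈ Finset.Iio n, (⟪InnerProductSpace.gramSchmidt ℂ (ξ x) i, ξ x n⟫_ℂ /
          ((‖InnerProductSpace.gramSchmidt ℂ (ξ x) i‖ ^ 2 : ℝ) : ℂ)) •
            InnerProductSpace.gramSchmidt ℂ (ξ x) i := by
      funext x
      rw [InnerProductSpace.gramSchmidt_def]
      congr 1
      refine Finset.sum_congr rfl fun i _ => ?_
      rw [Submodule.starProjection_singleton]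
      rfl
    rw [h1]
    refine (Simple.base n).sub (Simple.sum _ fun i hi => ?_)
    have h2 := ih i (Finset.mem_Iio.1 hi)
    refine Simple.smul ?_ h2
    exact (h2.inner hG (Simple.base n)).div (Complex.measurable_ofReal.comp ((h2.norm hG).pow_const 2))

theorem Simple.gramSchmidtNormed (hG : ∀ m n, Measurable fun x => ⟪ξ x m, ξ x n⟫_ℂ) (n : ℕ) :
    Simple ξ (fun x => InnerProductSpace.gramSchmidtNormed ℂ (ξ x) n) := by
  have h := Simple.gramSchmidt hG n
  exact Simple.smul (Complex.measurable_ofReal.comp (h.norm hG)).inv h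

theorem Simple.map {T : ∀ x, K x →L[ℂ] K x} {g : ℕ → ℕ} (hT : ∀ x n, T x (ξ x n) = ξ x (g n))
    {v : ∀ x, K x} (hv : Simple ξ v) : Simple ξ (fun x => T x (v x)) := by
  induction hv with
  | base n => simpa only [hT] using Simple.base (g n)
  | add _ _ ih1 ih2 => simpa only [map_add] using ih1.add ih2
  | smul hc _ ih => simpa only [map_smul] using Simple.smul hc ih

end simple

section isometry

variable {H : Type v} [NormedAddCommGroup H] [InnerProductSpace ℂ H] [CompleteSpace H]
variable {K : Type u} [NormedAddCommGroup K] [InnerProductSpace ℂ K] [CompleteSpace K]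

theorem exists_isometry (b : HilbertBasis ℕ ℂ H) (ξ : ℕ → K)
    (hξ : (Submodule.span ℂ (range ξ)).topologicalClosure = ⊤) :
    ∃ V : K →ₗᵢ[ℂ] H, ∀ n w, ⟪b n, V w⟫_ℂ = ⟪InnerProductSpace.gramSchmidtNormed ℂ ξ n, w⟫_ℂ := by
  classical
  set e := InnerProductSpace.gramSchmidtNormed ℂ ξ with he
  let s : Set ℕ := {n | e n ≠ 0}
  have hon : Orthonormal ℂ (fun n : s => e n) := InnerProductSpace.gramSchmidtNormed_orthonormal' ξ
  have hsp : ⊤ ≤ (Submodule.span ℂ (range fun n : s => e n)).topologicalClosure := by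
    have h1 : Submodule.span ℂ (range fun n : s => e n) = Submodule.span ℂ (range ξ) := by
      rw [← InnerProductSpace.span_gramSchmidt ℂ ξ, ← InnerProductSpace.span_gramSchmidtNormed_range]
      apply le_antisymm
      · refine Submodule.span_mono ?_
        rintro _ ⟨n, rfl⟩
        exact ⟨n, rfl⟩
      · refine Submodule.span_le.2 ?_
        rintro _ ⟨n, rfl⟩
        by_cases hn : e n = 0
        · change e n ∈ _
          rw [hn]; exact zero_mem _
        · exact Submodule.subset_span ⟨⟨n, hn⟩, rfl⟩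
    rw [h1, hξ]
  let eb : HilbertBasis s ℂ K := HilbertBasis.mk hon hsp
  have heb : ∀ n : s, eb n = e n := fun n => congrFun (HilbertBasis.coe_mk hon hsp) n
  have hb : Orthonormal ℂ (fun n : s => b n) := b.orthonormal.comp _ Subtype.val_injective
  let V : K →ₗᵢ[ℂ] H := hb.orthogonalFamily.linearIsometry.comp eb.repr.toLinearIsometry
  have hV : ∀ n : s, V (e n) = b n := by
    intro n
    change hb.orthogonalFamily.linearIsometry (eb.repr (e n)) = b n
    rw [← heb, eb.repr_self, OrthogonalFamily.linearIsometry_apply_single]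
    simp
  refine ⟨V, fun n w => ?_⟩
  by_cases hn : e n = 0
  · rw [hn, inner_zero_left]
    have h1 := ((eb.hasSum_repr w).mapL V.toContinuousLinearMap).mapL (innerSL ℂ (b n))
    have h2 : ∀ m : s, (innerSL ℂ (b n)) (V.toContinuousLinearMap (eb.repr w m • eb m)) = 0 := by
      intro m
      have hmn : n ≠ m := fun h => m.2 (h ▸ hn)
      rw [map_smul, heb]
      change (innerSL ℂ (b n)) (eb.repr w m • V (e m)) = 0
      rw [hV, map_smul, innerSL_apply_apply, b.orthonormal.2 hmn, smul_zero]
    simp only [h2] at h1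
    exact h1.unique hasSum_zero
  · have h1 := V.inner_map_map (e n) w
    rw [hV ⟨n, hn⟩] at h1
    exact h1

end isometry

section transfer

variable {H : Type v} [NormedAddCommGroup H] [InnerProductSpace ℂ H] [CompleteSpace H]
  [TopologicalSpace.SeparableSpace H]
variable {X : Type*} [MeasurableSpace X] {K : X → Type u} [∀ x, NormedAddCommGroup (K x)]
  [∀ x, InnerProductSpace ℂ (K x)] [∀ x, CompleteSpace (K x)]

theorem exists_transfer (b : HilbertBasis ℕ ℂ H) (ξ : ∀ x, ℕ → K x)
    (hξ : ∀ x, (Submodule.span ℂ (range (ξ x))).topologicalClosure = ⊤)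
    (hG : ∀ m n, Measurable fun x => ⟪ξ x m, ξ x n⟫_ℂ) :
    ∃ V : ∀ x, K x →ₗᵢ[ℂ] H, ∀ (T : ∀ x, K x →L[ℂ] K x) (g : ℕ → ℕ),
      (∀ x n, T x (ξ x n) = ξ x (g n)) →
      CM fun x => (V x).toContinuousLinearMap ∘L T x ∘L
        (ContinuousLinearMap.adjoint (V x).toContinuousLinearMap) := by
  choose V hV using fun x => exists_isometry b (ξ x) (hξ x)
  refine ⟨V, fun T g hT => CM.of_basis b fun m n => ?_⟩
  have hadj : ∀ x n, ContinuousLinearMap.adjoint (V x).toContinuousLinearMap (b n) =
      InnerProductSpace.gramSchmidtNormed ℂ (ξ x) n := by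
    intro x n
    refine ext_inner_right ℂ fun w => ?_
    rw [ContinuousLinearMap.adjoint_inner_left]
    exact hV x n w
  have h1 : (fun x => ⟪b m, ((V x).toContinuousLinearMap ∘L T x ∘L
      (ContinuousLinearMap.adjoint (V x).toContinuousLinearMap)) (b n)⟫_ℂ) = fun x =>
      ⟪InnerProductSpace.gramSchmidtNormed ℂ (ξ x) m,
        T x (InnerProductSpace.gramSchmidtNormed ℂ (ξ x) n)⟫_ℂ := by
    funext x
    simp only [ContinuousLinearMap.comp_apply]
    rw [hadj]
    exact hV x m _
  rw [h1]
  exact (Simple.gramSchmidtNormed hG m).inner hG ((Simple.gramSchmidtNormed hG n).map hT)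

end transfer

end Pool.Agent.H658.MT
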