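import Pool.Agent.H658.MT.Inj
import Pool.Agent.H658.MT.MG

/-! # Assembly: the maximal tensor product is a Borel construction -/

set_option autoImplicit false
set_option linter.unusedSectionVars false

open Set Filter Topology TensorProduct
open scoped InnerProductSpace ComplexConjugate

namespace Pool.Agent.H658.MT

universe u v

/-- `D` is (a copy of) the maximal tensor product of the C*-algebras `A` and `B`: there is a
*-homomorphism of the algebraic tensor product onto a dense *-subalgebra of `D`, the norm of `D`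
restricts to a C*-norm on the algebraic tensor product, and this is the largest C*-norm. -/
def IsMaxTensor (A B D : Type u) [NonUnitalCStarAlgebra A] [NonUnitalCStarAlgebra B]
    [NonUnitalCStarAlgebra D] : Prop :=
  ∃ j : A ⊗[ℂ] B →⋆ₙₐ[ℂ] D, DenseRange j ∧ IsCStarNorm (fun y => ‖j y‖) ∧
    ∀ p : A ⊗[ℂ] B → ℝ, IsCStarNorm p → ∀ y, p y ≤ ‖j y‖

section cj

variable {H : Type v} [NormedAddCommGroup H] [InnerProductSpace ℂ H] [CompleteSpace H]
variable {K : Type u} [NormedAddCommGroup K] [InnerProductSpace ℂ K] [CompleteSpace K]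

open ContinuousLinearMap in
lemma adj_self (V : K →ₗᵢ[ℂ] H) (x : K) :
    ContinuousLinearMap.adjoint V.toContinuousLinearMap (V x) = x := by
  refine ext_inner_right ℂ fun w => ?_
  rw [ContinuousLinearMap.adjoint_inner_left]
  exact V.inner_map_map x w

/-- conjugation by an isometry -/
noncomputable def conjV (V : K →ₗᵢ[ℂ] H) : (K →L[ℂ] K) →⋆ₙₐ[ℂ] (H →L[ℂ] H) where
  toFun T := V.toContinuousLinearMap ∘L T ∘L
    (ContinuousLinearMap.adjoint V.toContinuousLinearMap)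
  map_smul' c T := by ext w; simp
  map_zero' := by ext w; simp
  map_add' S T := by ext w; simp
  map_mul' S T := by
    ext w
    simp only [ContinuousLinearMap.comp_apply, mul_apply_eq_comp]
    congr 2
    exact (adj_self V _).symm
  map_star' T := by
    simp only [ContinuousLinearMap.star_eq_adjoint, ContinuousLinearMap.adjoint_comp,
      ContinuousLinearMap.adjoint_adjoint]
    rfl

lemma conjV_apply (V : K →ₗᵢ[ℂ] H) (T : K →L[ℂ] K) : conjV V T = V.toContinuousLinearMap ∘L T ∘L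
    (ContinuousLinearMap.adjoint V.toContinuousLinearMap) := rfl

lemma conjV_inj (V : K →ₗᵢ[ℂ] H) : Function.Injective (conjV V) := by
  intro S T h
  ext w
  have h1 := congrArg (fun R : H →L[ℂ] H => R (V w)) h
  simp only [conjV_apply, ContinuousLinearMap.comp_apply] at h1
  rw [adj_self] at h1
  exact V.injective h1

lemma norm_conjV (V : K →ₗᵢ[ℂ] H) (T : K →L[ℂ] K) : ‖conjV V T‖ = ‖T‖ :=
  NonUnitalStarAlgHom.norm_map (conjV V) (conjV_inj V) T

end cj

lemma isCStarNorm_of_inj {𝒜 : Type u} [NonUnitalRing 𝒜] [StarRing 𝒜] [Module ℂ 𝒜] {D : Type v}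
    [NonUnitalCStarAlgebra D] (j : 𝒜 →⋆ₙₐ[ℂ] D) (hj : ∀ y, j y = 0 → y = 0) :
    IsCStarNorm (fun y => ‖j y‖) where
  add_le x y := by
    rw [map_add]; exact norm_add_le _ _
  smul c x := by
    rw [map_smul, norm_smul]
  eq_zero x h := hj x (norm_eq_zero.1 h)
  mul_le x y := by
    rw [map_mul]; exact norm_mul_le _ _
  star_mul_self x := by
    rw [map_mul, map_star, CStarRing.norm_star_mul_self, sq]

section fixed

variable {A B : Type u} [NonUnitalCStarAlgebra A] [NonUnitalCStarAlgebra B]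
  (F : ℕ → (A ⊗[ℂ] B →ₗ[ℂ] ℂ)) (hF : ∀ n, Good (F n))

lemma exists_gnsData : ∃ (K : Type u) (_ : NormedAddCommGroup K) (_ : InnerProductSpace ℂ K)
      (_ : CompleteSpace K) (η : A ⊗[ℂ] B →ₗ[ℂ] K) (π : A ⊗[ℂ] B →⋆ₙₐ[ℂ] (K →L[ℂ] K)),
      GnsData (PhiF F hF) η π := by
  obtain ⟨K, i1, i2, i3, η, π, h1, h2, h3, h4⟩ :=
    exists_gns_tensor (PhiF_posF F hF) (PhiF_bound F hF)
  exact ⟨K, i1, i2, i3, η, π, ⟨h1, h2, h3, h4⟩⟩

variable {F hF} {K : Type u} [NormedAddCommGroup K]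
    [InnerProductSpace ℂ K] [CompleteSpace K] {η : A ⊗[ℂ] B →ₗ[ℂ] K}
    {π : A ⊗[ℂ] B →⋆ₙₐ[ℂ] (K →L[ℂ] K)} (h : GnsData (PhiF F hF) η π)
    {a : Tm → A} {b : Tm → B} (ha : TRep a) (hb : TRep b)
    {en : ℕ → Tm × Tm} (hen : Function.Surjective en)

include h ha hb hen

lemma span_dense :
    (Submodule.span ℂ (range fun n => η (a (en n).1 ⊗ₜ b (en n).2))).topologicalClosure = ⊤ := by
  set S := (Submodule.span ℂ (range fun n => η (a (en n).1 ⊗ₜ b (en n).2))).topologicalClosure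
    with hS
  have hηn : ∀ (y : A) (z : B), ‖η (y ⊗ₜ z)‖ ≤ 1 * ‖y‖ * ‖z‖ := by
    intro y z
    rw [one_mul]
    refine le_of_sq_le_sq ?_ (by positivity)
    rw [h.norm_sq, TensorProduct.star_tmul, Algebra.TensorProduct.tmul_mul_tmul]
    refine (Complex.re_le_norm _).trans ((PhiF_bound F hF _ _).trans ?_)
    rw [CStarRing.norm_star_mul_self, CStarRing.norm_star_mul_self]
    apply le_of_eq; ring
  have hScl : IsClosed (S : Set K) := Submodule.isClosed_topologicalClosure _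
  have h1 : ∀ (y : A) (z : B), η (y ⊗ₜ z) ∈ S := by
    intro y z
    have hc := cont_tmul η 1 hηn
    refine (ha.dense.prodMap hb.dense).induction_on (p := fun w => η (w.1 ⊗ₜ w.2) ∈ S)
      (y, z) (hScl.preimage hc) ?_
    rintro ⟨s, t⟩
    obtain ⟨n, hn⟩ := hen (s, t)
    refine Submodule.le_topologicalClosure _ (Submodule.subset_span ⟨n, ?_⟩)
    change η (a (en n).1 ⊗ₜ b (en n).2) = _
    rw [hn]
    rfl
  have h2 : ∀ y, η y ∈ S := by
    intro y
    induction y using TensorProduct.induction_on with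
    | zero => rw [map_zero]; exact zero_mem _
    | tmul y z => exact h1 y z
    | add y z hy hz => rw [map_add]; exact add_mem hy hz
  rw [eq_top_iff]
  intro w _
  exact h.dense.induction_on (p := fun w => w ∈ S) w hScl h2

theorem fixed_max {H : Type u} [NormedAddCommGroup H] [InnerProductSpace ℂ H] [CompleteSpace H]
    (hd : ∀ G : A ⊗[ℂ] B →ₗ[ℂ] ℂ, Good G → ∀ (P : Finset (Tm × Tm)) (ε : ℝ), 0 < ε →
        ∃ n, ∀ q ∈ P, ‖F n (a q.1 ⊗ₜ b q.2) - G (a q.1 ⊗ₜ b q.2)‖ < ε)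
    (ρ : A →⋆ₙₐ[ℂ] (H →L[ℂ] H)) (σ : B →⋆ₙₐ[ℂ] (H →L[ℂ] H))
    (hρ : ∀ a, ‖ρ a‖ ≤ ‖a‖) (hσ : ∀ b, ‖σ b‖ ≤ ‖b‖)
    (hρi : ∀ a, ρ a = 0 → a = 0) (hσi : ∀ b, σ b = 0 → b = 0) (V : K →ₗᵢ[ℂ] H) :
    IsMaxTensor A B (CStar fun k => conjV V (π (a (en k).1 ⊗ₜ b (en k).2))) := by
  set Φ : ℕ → (H →L[ℂ] H) := fun k => conjV V (π (a (en k).1 ⊗ₜ b (en k).2)) with hΦ
  let j₀ : A ⊗[ℂ] B →⋆ₙₐ[ℂ] (H →L[ℂ] H) := (conjV V).comp π
  have hj₀ : ∀ y, ‖j₀ y‖ = ‖π y‖ := fun y => norm_conjV _ _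
  have hj₁ : ∀ y, j₀ y ∈ CStar Φ := by
    have h1 : ∀ (y : A) (z : B), j₀ (y ⊗ₜ z) ∈ CStar Φ := by
      intro y z
      have hc := cont_tmul (j₀ : A ⊗[ℂ] B →ₗ[ℂ] (H →L[ℂ] H)) 1 (fun y z => by
        rw [one_mul]
        exact (hj₀ _).trans_le (h.norm_le y z))
      refine (ha.dense.prodMap hb.dense).induction_on
        (p := fun w => j₀ (w.1 ⊗ₜ w.2) ∈ CStar Φ)
        (y, z) ((isClosed_CStar Φ).preimage hc) ?_
      rintro ⟨s, t⟩
      obtain ⟨n, hn⟩ := hen (s, t)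
      have h2 : j₀ (a s ⊗ₜ b t) = Φ n := by
        change _ = conjV V (π (a (en n).1 ⊗ₜ b (en n).2))
        rw [hn]; rfl
      change j₀ (a s ⊗ₜ b t) ∈ _
      rw [h2]
      exact gen_mem _ _
    intro y
    induction y using TensorProduct.induction_on with
    | zero => rw [map_zero]; exact zero_mem _
    | tmul y z => exact h1 y z
    | add y z hy hz => rw [map_add]; exact add_mem hy hz
  let j : A ⊗[ℂ] B →⋆ₙₐ[ℂ] CStar Φ := NonUnitalStarAlgHom.codRestrict j₀ (CStar Φ) hj₁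
  have hj : ∀ y, ‖j y‖ = ‖π y‖ := fun y => hj₀ y
  refine ⟨j, ?_, isCStarNorm_of_inj j ?_, ?_⟩
  · have h1 : CStar Φ ≤ (NonUnitalStarAlgHom.range j₀).topologicalClosure := by
      refine NonUnitalStarSubalgebra.topologicalClosure_mono (NonUnitalStarAlgebra.adjoin_le ?_)
      rintro _ ⟨n, rfl⟩
      exact ⟨a (en n).1 ⊗ₜ b (en n).2, rfl⟩
    intro z
    rw [Topology.IsInducing.subtypeVal.closure_eq_preimage_closure_image]
    have h2 : (z : H →L[ℂ] H) ∈ closure (range j₀) := h1 z.2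
    have h3 : range j₀ = Subtype.val '' (range j) := by
      rw [← range_comp]; rfl
    rw [h3] at h2
    exact h2
  · intro y hy
    have h1 : ‖π y‖ = 0 := by rw [← hj, hy, norm_zero]
    refine eq_zero_of_good ρ σ hρ hσ hρi hσi y fun G hGood => ?_
    have h2 := h.le F hF ha hb hd hGood y
    rw [h1] at h2
    simpa using h2
  · intro p hp y
    rw [hj]
    exact h.norm_dom F hF ha hb hd hp y

end fixed

section main

variable {H : Type u} [NormedAddCommGroup H] [InnerProductSpace ℂ H] [CompleteSpace H]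
  [TopologicalSpace.SeparableSpace H]
variable {X : Type v} [MeasurableSpace X]

theorem main_aux (e : HilbertBasis ℕ ℂ H) (γ δ : X → ℕ → (H →L[ℂ] H))
    (hγ : ∀ n, CM fun x => γ x n) (hδ : ∀ n, CM fun x => δ x n) :
    ∃ Φ : X → ℕ → (H →L[ℂ] H), (∀ n, CM fun x => Φ x n) ∧
      ∀ x, IsMaxTensor (CStar (γ x)) (CStar (δ x)) (CStar (Φ x)) := by
  obtain ⟨en, hen⟩ := exists_surjective_nat (Tm × Tm)
  let a : ∀ x, Tm → CStar (γ x) := fun x => cev (γ x)
  let b : ∀ x, Tm → CStar (δ x) := fun x => cev (δ x)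
  have ha : ∀ x, TRep (a x) := fun x => trep_cev (γ x)
  have hb : ∀ x, TRep (b x) := fun x => trep_cev (δ x)
  have hma : ∀ t, Measurable fun x => ‖a x t‖ := fun t => (CM.eval e hγ t).norm
  have hmb : ∀ t, Measurable fun x => ‖b x t‖ := fun t => (CM.eval e hδ t).norm
  obtain ⟨F, hF, hFm, hFd⟩ := exists_family a b ha hb hma hmb
  have hgns := fun x => exists_gnsData (fun n => F n x) (fun n => hF n x)
  choose K i1 i2 i3 η π hG using hgns
  let ξ : ∀ x, ℕ → K x := fun x n => η x (a x (en n).1 ⊗ₜ b x (en n).2)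
  have hξ : ∀ x, (Submodule.span ℂ (range (ξ x))).topologicalClosure = ⊤ := fun x =>
    span_dense (hG x) (ha x) (hb x) hen
  have hGm : ∀ m n, Measurable fun x => ⟪ξ x m, ξ x n⟫_ℂ := by
    intro m n
    have h1 : (fun x => ⟪ξ x m, ξ x n⟫_ℂ) = fun x =>
        PhiF (fun n => F n x) (fun n => hF n x) (a x (.mul (.star (en m).1) (en n).1) ⊗ₜ
          b x (.mul (.star (en m).2) (en n).2)) := by
      funext x
      rw [(hG x).inner, TensorProduct.star_tmul, Algebra.TensorProduct.tmul_mul_tmul,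
        (ha x).mul, (ha x).star, (hb x).mul, (hb x).star]
    rw [h1]
    refine measurable_of_tendsto_metrizable (f := fun (N : ℕ) x => ∑ k ∈ Finset.range N,
      (wt k : ℂ) * F k x (a x (.mul (.star (en m).1) (en n).1) ⊗ₜ
          b x (.mul (.star (en m).2) (en n).2))) (fun N => ?_) ?_
    · exact Finset.measurable_fun_sum _ fun k _ => (hFm k _ _).const_mul _
    · rw [tendsto_pi_nhds]
      intro x
      exact (PhiF_hasSum (fun n => F n x) (fun n => hF n x) _).tendsto_sum_nat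
  obtain ⟨V, hV⟩ := exists_transfer e ξ hξ hGm
  let Φ : X → ℕ → (H →L[ℂ] H) := fun x k => conjV (V x) (π x (a x (en k).1 ⊗ₜ b x (en k).2))
  have hg : ∀ k n, ∃ m, en m = (Tm.mul (en k).1 (en n).1, Tm.mul (en k).2 (en n).2) := fun k n =>
    hen _
  choose g hg using hg
  refine ⟨Φ, fun k => ?_, fun x => ?_⟩
  · refine hV (fun x => π x (a x (en k).1 ⊗ₜ b x (en k).2)) (g k) fun x n => ?_
    change π x (a x (en k).1 ⊗ₜ b x (en k).2) (η x (a x (en n).1 ⊗ₜ b x (en n).2)) =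
      η x (a x (en (g k n)).1 ⊗ₜ b x (en (g k n)).2)
    rw [(hG x).act, Algebra.TensorProduct.tmul_mul_tmul, hg, (ha x).mul, (hb x).mul]
  · exact fixed_max (hG x) (ha x) (hb x) hen (hFd x)
      (NonUnitalStarSubalgebraClass.subtype (CStar (γ x)))
      (NonUnitalStarSubalgebraClass.subtype (CStar (δ x))) (fun a => le_rfl) (fun b => le_rfl)
      (fun a ha => Subtype.ext ha) (fun b hb => Subtype.ext hb) (V x)

end main

end Pool.Agent.H658.MT
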