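import Pool.Agent.H658.MT.Cross

/-! # GNS representations of positive functionals on the algebraic tensor product -/

set_option autoImplicit false
set_option linter.unusedSectionVars false

open Set Filter Topology TensorProduct
open scoped InnerProductSpace ComplexConjugate

namespace Pool.Agent.H658.MT

universe u

/-- the power trick -/
lemma power_trick (x : ℕ → ℝ) (K C c : ℝ) (hK : 0 ≤ K) (hc : 0 < c)
    (h1 : ∀ m, x m ^ 2 ≤ K * x (m + 1)) (h2 : ∀ m, x (m + 1) ≤ C * c ^ (2 ^ (m + 1))) :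
    x 0 ≤ K * c := by
  by_contra hlt
  push Not at hlt
  rcases eq_or_lt_of_le hK with hK | hK
  · rw [← hK] at hlt h1
    have := h1 0
    nlinarith
  set r := x 0 / (K * c) with hr
  have hKc : 0 < K * c := by positivity
  have hr1 : 1 < r := (one_lt_div hKc).2 hlt
  have h3 : ∀ m, K * (c * r) ^ (2 ^ m) ≤ x m := by
    intro m
    induction m with
    | zero =>
      rw [hr, pow_zero, pow_one]
      apply le_of_eq
      field_simp
    | succ m ih =>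
      have h4 := h1 m
      have h5 : (K * (c * r) ^ (2 ^ m)) ^ 2 ≤ x m ^ 2 := by
        have : 0 ≤ K * (c * r) ^ (2 ^ m) := by positivity
        gcongr
      have h6 : K * (K * (c * r) ^ (2 ^ (m + 1))) ≤ K * x (m + 1) := by
        refine le_trans (le_of_eq ?_) (h5.trans h4)
        rw [pow_succ 2 m, pow_mul]
        ring
      exact le_of_mul_le_mul_left h6 hK
  have h7 : ∀ m : ℕ, r ^ (2 ^ (m + 1)) ≤ C / K := by
    intro m
    have h8 := (h3 (m + 1)).trans (h2 m)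
    rw [mul_pow] at h8
    have hcp : 0 < c ^ (2 ^ (m + 1)) := by positivity
    rw [le_div_iff₀ hK]
    have h9 : c ^ (2 ^ (m + 1)) * (r ^ (2 ^ (m + 1)) * K) ≤ c ^ (2 ^ (m + 1)) * C := by
      nlinarith
    exact le_of_mul_le_mul_left h9 hcp
  obtain ⟨N, hN⟩ := pow_unbounded_of_one_lt (C / K) hr1
  have h10 : N ≤ 2 ^ (N + 1) := (Nat.lt_two_pow_self (n := N + 1)).le.trans' (Nat.le_succ N)
  have h11 := h7 N
  have h12 : r ^ N ≤ r ^ (2 ^ (N + 1)) := pow_le_pow_right₀ hr1.le h10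
  linarith

/-- iterated squares -/
def hs {R : Type*} [Mul R] (h : R) : ℕ → R
  | 0 => h
  | m + 1 => hs h m * hs h m

lemma hs_norm {R : Type*} [NonUnitalNormedRing R] (h : R) (m : ℕ) : ‖hs h m‖ ≤ ‖h‖ ^ (2 ^ m) := by
  induction m with
  | zero => simp [hs]
  | succ m ih =>
    rw [hs, pow_succ 2 m, pow_mul, sq]
    exact (norm_mul_le _ _).trans (by gcongr)

lemma hs_star {R : Type*} [Mul R] [StarMul R] {h : R} (hh : star h = h) (m : ℕ) :
    star (hs h m) = hs h m := by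
  induction m with
  | zero => exact hh
  | succ m ih => rw [hs, star_mul, ih]

lemma hs_map {R S F : Type*} [Mul R] [Mul S] [FunLike F R S] [MulHomClass F R S] (f : F) (h : R)
    (m : ℕ) : f (hs h m) = hs (f h) m := by
  induction m with
  | zero => rfl
  | succ m ih => rw [hs, map_mul, ih]; rfl

variable {A B : Type*} [NonUnitalCStarAlgebra A] [NonUnitalCStarAlgebra B]

lemma hs_tmul (a : A) (b : B) (m : ℕ) : hs (a ⊗ₜ[ℂ] b) m = hs a m ⊗ₜ[ℂ] hs b m := by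
  induction m with
  | zero => rfl
  | succ m ih => rw [hs, ih, Algebra.TensorProduct.tmul_mul_tmul]; rfl

section
variable {F : A ⊗[ℂ] B →ₗ[ℂ] ℂ} (hF : PosF F) (hb : ∀ x y, ‖F (x ⊗ₜ y)‖ ≤ ‖x‖ * ‖y‖)
include hF

lemma normG_mul_sq (y z : A ⊗[ℂ] B) :
    ‖toG hF (y * z)‖ ^ 2 ≤ ‖toG hF z‖ * ‖toG hF (star y * y * z)‖ := by
  have h1 := norm_inner_le_norm (𝕜 := ℂ) (toG hF z) (toG hF (star y * y * z))
  refine le_trans ?_ h1
  rw [normG_sq, innerG]
  simp only [LinearEquiv.symm_apply_apply]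
  have h2 : star (y * z) * (y * z) = star z * (star y * y * z) := by
    rw [star_mul]; simp only [mul_assoc]
  rw [h2]
  exact Complex.re_le_norm _

include hb

lemma sum_bound {n : ℕ} (x : Fin n → A) (y : Fin n → B) :
    ‖toG hF (∑ i, x i ⊗ₜ y i)‖ ≤ ∑ i, ‖x i‖ * ‖y i‖ := by
  rw [map_sum]
  refine (norm_sum_le _ _).trans (Finset.sum_le_sum fun i _ => ?_)
  refine le_of_sq_le_sq ?_ (by positivity)
  rw [normG_sq]
  simp only [LinearEquiv.symm_apply_apply, TensorProduct.star_tmul,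
    Algebra.TensorProduct.tmul_mul_tmul]
  refine (Complex.re_le_norm _).trans ((hb _ _).trans ?_)
  rw [CStarRing.norm_star_mul_self, CStarRing.norm_star_mul_self]
  apply le_of_eq; ring

theorem tmul_bound (a : A) (b : B) (z : A ⊗[ℂ] B) :
    ‖toG hF (a ⊗ₜ b * z)‖ ≤ ‖a‖ * ‖b‖ * ‖toG hF z‖ := by
  obtain ⟨n, x, y, hz⟩ := TensorProduct.exists_sum_tmul_eq z
  set h : A ⊗[ℂ] B := star (a ⊗ₜ b) * (a ⊗ₜ b) with hh
  have hh2 : h = (star a * a) ⊗ₜ (star b * b) := by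
    rw [hh, TensorProduct.star_tmul, Algebra.TensorProduct.tmul_mul_tmul]
  have hsa : star h = h := by rw [hh, star_mul, star_star]
  have key : ∀ c : ℝ, ‖a‖ ^ 2 * ‖b‖ ^ 2 < c →
      ‖toG hF (h * z)‖ ^ 2 ≤ ‖toG hF z‖ ^ 2 * c ^ 2 := by
    intro c hc
    have hc0 : 0 < c := lt_of_le_of_lt (by positivity) hc
    refine power_trick (fun m => ‖toG hF (hs h m * z)‖ ^ 2) (‖toG hF z‖ ^ 2)
      ((∑ i, ‖x i‖ * ‖y i‖) ^ 2) (c ^ 2) (by positivity) (by positivity)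
      ?_ ?_
    · intro m
      have h1 := normG_mul_sq hF (hs h m) z
      rw [hs_star hsa, show hs h m * hs h m = hs h (m + 1) from rfl] at h1
      have h2 : (‖toG hF (hs h m * z)‖ ^ 2) ^ 2 ≤ (‖toG hF z‖ * ‖toG hF (hs h (m + 1) * z)‖) ^ 2 := by
        gcongr
      rw [mul_pow] at h2
      exact h2
    · intro m
      have h1 : hs h (m + 1) * z = ∑ i, (hs (star a * a) (m + 1) * x i) ⊗ₜ[ℂ]
          (hs (star b * b) (m + 1) * y i) := by
        rw [hh2, hs_tmul, hz, Finset.mul_sum]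
        simp only [Algebra.TensorProduct.tmul_mul_tmul]
      have h2 : ‖toG hF (hs h (m + 1) * z)‖ ≤ c ^ (2 ^ (m + 1)) * ∑ i, ‖x i‖ * ‖y i‖ := by
        rw [h1]
        refine (sum_bound hF hb _ _).trans ?_
        rw [Finset.mul_sum]
        refine Finset.sum_le_sum fun i _ => ?_
        have h3 : ‖hs (star a * a) (m + 1) * x i‖ ≤ (‖a‖ ^ 2) ^ (2 ^ (m + 1)) * ‖x i‖ := by
          refine (norm_mul_le _ _).trans ?_
          gcongr
          refine (hs_norm _ _).trans ?_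
          rw [CStarRing.norm_star_mul_self, sq]
        have h4 : ‖hs (star b * b) (m + 1) * y i‖ ≤ (‖b‖ ^ 2) ^ (2 ^ (m + 1)) * ‖y i‖ := by
          refine (norm_mul_le _ _).trans ?_
          gcongr
          refine (hs_norm _ _).trans ?_
          rw [CStarRing.norm_star_mul_self, sq]
        calc ‖hs (star a * a) (m + 1) * x i‖ * ‖hs (star b * b) (m + 1) * y i‖
            ≤ ((‖a‖ ^ 2) ^ (2 ^ (m + 1)) * ‖x i‖) * ((‖b‖ ^ 2) ^ (2 ^ (m + 1)) * ‖y i‖) := by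
              gcongr
          _ = (‖a‖ ^ 2 * ‖b‖ ^ 2) ^ (2 ^ (m + 1)) * (‖x i‖ * ‖y i‖) := by
              rw [mul_pow]; ring
          _ ≤ c ^ (2 ^ (m + 1)) * (‖x i‖ * ‖y i‖) := by gcongr
      have h5 : ‖toG hF (hs h (m + 1) * z)‖ ^ 2 ≤ (c ^ (2 ^ (m + 1)) * ∑ i, ‖x i‖ * ‖y i‖) ^ 2 := by
        gcongr
      refine h5.trans (le_of_eq ?_)
      rw [mul_pow, ← pow_mul, ← pow_mul]
      ring
  have key2 : ‖toG hF (h * z)‖ ≤ ‖toG hF z‖ * (‖a‖ ^ 2 * ‖b‖ ^ 2) := by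
    have h1 : ∀ c : ℝ, ‖a‖ ^ 2 * ‖b‖ ^ 2 < c → ‖toG hF (h * z)‖ ≤ ‖toG hF z‖ * c := by
      intro c hc
      have hc0 : 0 < c := lt_of_le_of_lt (by positivity) hc
      refine le_of_sq_le_sq ?_ (by positivity)
      rw [mul_pow]
      exact key c hc
    have h2 : Tendsto (fun c : ℝ => ‖toG hF z‖ * c) (𝓝[>] (‖a‖ ^ 2 * ‖b‖ ^ 2))
        (𝓝 (‖toG hF z‖ * (‖a‖ ^ 2 * ‖b‖ ^ 2))) :=
      (continuous_const.mul continuous_id).continuousWithinAt
    exact ge_of_tendsto h2 (eventually_mem_nhdsWithin.mono fun c hc => h1 c hc)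
  have h6 := normG_mul_sq hF (a ⊗ₜ b) z
  refine le_of_sq_le_sq (h6.trans ?_) (by positivity)
  calc ‖toG hF z‖ * ‖toG hF (h * z)‖ ≤ ‖toG hF z‖ * (‖toG hF z‖ * (‖a‖ ^ 2 * ‖b‖ ^ 2)) := by
        gcongr
    _ = _ := by ring

theorem gns_bounded (y : A ⊗[ℂ] B) : ∃ C : ℝ, 0 ≤ C ∧ ∀ z,
      (F (star (y * z) * (y * z))).re ≤ C ^ 2 * (F (star z * z)).re := by
  obtain ⟨n, x, w, hy⟩ := TensorProduct.exists_sum_tmul_eq y
  refine ⟨∑ i, ‖x i‖ * ‖w i‖, by positivity, fun z => ?_⟩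
  have h1 := normG_sq hF (toG hF (y * z))
  have h2 := normG_sq hF (toG hF z)
  simp only [LinearEquiv.symm_apply_apply] at h1 h2
  rw [← h1, ← h2, ← mul_pow]
  gcongr
  rw [hy, Finset.sum_mul, map_sum, Finset.sum_mul]
  refine (norm_sum_le _ _).trans (Finset.sum_le_sum fun i _ => ?_)
  exact tmul_bound hF hb _ _ _

end

/-- the GNS representation -/
theorem exists_gns_tensor {A B : Type u} [NonUnitalCStarAlgebra A] [NonUnitalCStarAlgebra B]
    {F : A ⊗[ℂ] B →ₗ[ℂ] ℂ} (hF : PosF F) (hb : ∀ x y, ‖F (x ⊗ₜ y)‖ ≤ ‖x‖ * ‖y‖) :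
    ∃ (K : Type u) (_ : NormedAddCommGroup K) (_ : InnerProductSpace ℂ K) (_ : CompleteSpace K)
      (η : A ⊗[ℂ] B →ₗ[ℂ] K) (π : A ⊗[ℂ] B →⋆ₙₐ[ℂ] (K →L[ℂ] K)),
      (∀ y z, ⟪η y, η z⟫_ℂ = F (star y * z)) ∧ (∀ y z, π y (η z) = η (y * z)) ∧ DenseRange η ∧
      ∀ a b, ‖π (a ⊗ₜ b)‖ ≤ ‖a‖ * ‖b‖ := by
  obtain ⟨K, i1, i2, i3, η, π, h1, h2, h3, h4⟩ := exists_gns hF (gns_bounded hF hb)
  refine ⟨K, i1, i2, i3, η, π, h1, h2, h3, fun a b => h4 _ _ (by positivity) fun z => ?_⟩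
  have h5 := normG_sq hF (toG hF (a ⊗ₜ b * z))
  have h6 := normG_sq hF (toG hF z)
  simp only [LinearEquiv.symm_apply_apply] at h5 h6
  rw [← h5, ← h6, ← mul_pow]
  have := tmul_bound hF hb a b z
  gcongr

end Pool.Agent.H658.MT
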