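import Mathlib

/-! # Completion of a normed *-algebra with a C*-norm -/

set_option autoImplicit false
set_option linter.unusedSectionVars false

open Set Filter Topology UniformSpace

namespace Pool.Agent.H658.MT

universe u

section compl

variable (R : Type u) [NormedRing R] [StarRing R] [CStarRing R] [NormedAlgebra ℂ R]
  [StarModule ℂ R]

lemma uc_star : UniformContinuous (star : R → R) := star_isometry.uniformContinuous

@[instance_reducible]
noncomputable def complStar : StarRing (Completion R) where
  star := Completion.map star
  star_involutive x := by
    induction x using Completion.induction_on with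
    | hp => exact isClosed_eq (Completion.continuous_map.comp Completion.continuous_map)
              continuous_id
    | ih x =>
      change Completion.map star (Completion.map star (x : Completion R)) = x
      rw [Completion.map_coe (uc_star R), Completion.map_coe (uc_star R), star_star]
  star_mul x y := by
    induction x, y using Completion.induction_on₂ with
    | hp =>
      have hs : Continuous (Completion.map (star : R → R)) := Completion.continuous_map
      exact isClosed_eq (by fun_prop) (by fun_prop)
    | ih x y =>
      change Completion.map star ((x : Completion R) * (y : Completion R)) =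
        Completion.map star (y : Completion R) * Completion.map star (x : Completion R)
      rw [← Completion.coe_mul, Completion.map_coe (uc_star R), Completion.map_coe (uc_star R),
        Completion.map_coe (uc_star R), star_mul, Completion.coe_mul]
  star_add x y := by
    induction x, y using Completion.induction_on₂ with
    | hp =>
      have hs : Continuous (Completion.map (star : R → R)) := Completion.continuous_map
      exact isClosed_eq (by fun_prop) (by fun_prop)
    | ih x y =>
      change Completion.map star ((x : Completion R) + (y : Completion R)) =
        Completion.map star (x : Completion R) + Completion.map star (y : Completion R)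
      rw [← Completion.coe_add, Completion.map_coe (uc_star R), Completion.map_coe (uc_star R),
        Completion.map_coe (uc_star R), star_add, Completion.coe_add]

attribute [local instance] complStar

lemma star_coe_compl (x : R) : star (x : Completion R) = ((star x : R) : Completion R) :=
  Completion.map_coe (uc_star R) x

lemma continuous_star_compl : Continuous (star : Completion R → Completion R) :=
  Completion.continuous_map

@[instance_reducible]
noncomputable def complCStar : CStarAlgebra (Completion R) where
  __ := complStar R
  norm_smul_le c x := norm_smul_le c x
  norm_mul_self_le x := by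
    induction x using Completion.induction_on with
    | hp => exact isClosed_le (continuous_norm.mul continuous_norm)
              (((continuous_star_compl R).mul continuous_id).norm)
    | ih x =>
      change ‖(x : Completion R)‖ * ‖(x : Completion R)‖ ≤ ‖star (x : Completion R) * x‖
      rw [star_coe_compl, ← Completion.coe_mul, Completion.norm_coe, Completion.norm_coe,
        CStarRing.norm_star_mul_self]
  star_smul c x := by
    induction x using Completion.induction_on with
    | hp => exact isClosed_eq ((continuous_star_compl R).comp (continuous_const_smul c))
              ((continuous_const_smul _).comp (continuous_star_compl R))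
    | ih x =>
      change star (c • (x : Completion R)) = star c • star (x : Completion R)
      rw [← Completion.coe_smul, star_coe_compl, star_coe_compl, star_smul, Completion.coe_smul]

theorem exists_compl : ∃ (U : Type u) (_ : CStarAlgebra U) (j : R →⋆ₙₐ[ℂ] U), ∀ x, ‖j x‖ = ‖x‖ := by
  let _ := complCStar R
  refine ⟨Completion R, complCStar R, { toFun := fun x => (x : Completion R)
                                        map_smul' := fun c x => Completion.coe_smul c x
                                        map_zero' := Completion.coe_zero
                                        map_add' := Completion.coe_add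
                                        map_mul' := Completion.coe_mul
                                        map_star' := fun x => (star_coe_compl R x).symm },
    fun x => Completion.norm_coe x⟩

end compl

/-- `C*`-norms on a complex *-algebra. -/
structure IsCStarNorm {𝒜 : Type u} [NonUnitalRing 𝒜] [StarRing 𝒜] [Module ℂ 𝒜] (p : 𝒜 → ℝ) :
    Prop where
  add_le : ∀ x y, p (x + y) ≤ p x + p y
  smul : ∀ (c : ℂ) x, p (c • x) = ‖c‖ * p x
  eq_zero : ∀ x, p x = 0 → x = 0
  mul_le : ∀ x y, p (x * y) ≤ p x * p y
  star_mul_self : ∀ x, p (star x * x) = p x ^ 2

section norm

variable {𝒜 : Type u} [NonUnitalRing 𝒜] [StarRing 𝒜] [Module ℂ 𝒜] [IsScalarTower ℂ 𝒜 𝒜]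
  [SMulCommClass ℂ 𝒜 𝒜] [StarModule ℂ 𝒜] {p : 𝒜 → ℝ} (hp : IsCStarNorm p)

include hp

lemma IsCStarNorm.map_zero : p 0 = 0 := by
  have := hp.smul 0 0
  simpa using this

lemma IsCStarNorm.neg (x : 𝒜) : p (-x) = p x := by
  have := hp.smul (-1) x
  simpa using this

lemma IsCStarNorm.nonneg (x : 𝒜) : 0 ≤ p x := by
  have h := hp.add_le x (-x)
  rw [add_neg_cancel, hp.map_zero, hp.neg] at h
  linarith

theorem exists_embed : ∃ (U : Type u) (_ : CStarAlgebra U) (j : 𝒜 →⋆ₙₐ[ℂ] U),
    ∀ x, ‖j x‖ = p x := by
  let g : AddGroupNorm 𝒜 :=
    { toFun := p
      map_zero' := hp.map_zero
      add_le' := hp.add_le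
      neg' := hp.neg
      eq_zero_of_map_eq_zero' := hp.eq_zero }
  let i1 : NormedAddCommGroup 𝒜 := g.toNormedAddCommGroup
  have hnorm : ∀ x : 𝒜, ‖x‖ = p x := fun x => rfl
  let i2 : NonUnitalNormedRing 𝒜 :=
    { i1, ‹NonUnitalRing 𝒜› with
      norm_mul_le := fun x y => hp.mul_le x y }
  let i3 : NormedSpace ℂ 𝒜 := { norm_smul_le := fun c x => (hp.smul c x).le }
  have i4 : CStarRing 𝒜 := ⟨fun {x} => by
    rw [hnorm, hnorm, hp.star_mul_self, sq]⟩
  obtain ⟨U, iU, j, hj⟩ := exists_compl (Unitization ℂ 𝒜)
  let j1 : 𝒜 →⋆ₙₐ[ℂ] Unitization ℂ 𝒜 := Unitization.inrNonUnitalStarAlgHom ℂ 𝒜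
  refine ⟨U, iU, j.comp j1, fun x => ?_⟩
  rw [NonUnitalStarAlgHom.comp_apply, hj]
  change ‖(x : Unitization ℂ 𝒜)‖ = _
  rw [Unitization.norm_inr]
  rfl

end norm

end Pool.Agent.H658.MT
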