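import Pool.Agent.H658.MT.Terms

/-! # Positive functionals on the algebraic tensor product from their values on terms -/

set_option autoImplicit false
set_option linter.unusedSectionVars false

open Set Filter Topology TensorProduct
open scoped InnerProductSpace

namespace Pool.Agent.H658.MT

variable {A B : Type*} [NonUnitalCStarAlgebra A] [NonUnitalCStarAlgebra B]

/-- values of a functional on pairs of terms: bilinearity and boundedness -/
structure IsForm (a : Tm → A) (b : Tm → B) (φ : Tm → Tm → ℂ) : Prop where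
  add_left : ∀ s s' t, φ (.add s s') t = φ s t + φ s' t
  add_right : ∀ s t t', φ s (.add t t') = φ s t + φ s t'
  smul_left : ∀ p q s t, φ (.smul p q s) t = qi p q * φ s t
  smul_right : ∀ p q s t, φ s (.smul p q t) = qi p q * φ s t
  norm_le : ∀ s t, ‖φ s t‖ ≤ ‖a s‖ * ‖b t‖

/-- the value of the functional at `z* z`, `z = ∑ (u i).1 ⊗ (u i).2` -/
noncomputable def QF (φ : Tm → Tm → ℂ) {n : ℕ} (u : Fin n → Tm × Tm) : ℂ :=
  ∑ i, ∑ j, φ (.mul (.star (u i).1) (u j).1) (.mul (.star (u i).2) (u j).2)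

/-- the value of the functional at `z = ∑ (u i).1 ⊗ (u i).2` -/
noncomputable def LF (φ : Tm → Tm → ℂ) {n : ℕ} (u : Fin n → Tm × Tm) : ℂ :=
  ∑ i, φ (u i).1 (u i).2

/-- the functionals on the algebraic tensor product which extend to contractive positive
functionals on the maximal tensor product -/
structure Good (F : A ⊗[ℂ] B →ₗ[ℂ] ℂ) : Prop where
  bound : ∀ x y, ‖F (x ⊗ₜ y)‖ ≤ ‖x‖ * ‖y‖
  im : ∀ z, (F (star z * z)).im = 0
  pos : ∀ z, 0 ≤ (F (star z * z)).re
  ctr : ∀ z, ‖F z‖ ^ 2 ≤ (F (star z * z)).re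

lemma qi_neg_one : qi (-1) 0 = -1 := by simp [qi]

section ext
variable {a : Tm → A} {b : Tm → B} (ha : TRep a) (hb : TRep b) {φ : Tm → Tm → ℂ}
  (h : IsForm a b φ)
include ha hb h

lemma form_sub_left (s s' t : Tm) : ‖φ s t - φ s' t‖ ≤ ‖a s - a s'‖ * ‖b t‖ := by
  have h1 := h.norm_le (.add s (.smul (-1) 0 s')) t
  rw [h.add_left, h.smul_left, ha.add, ha.smul, qi_neg_one, neg_one_mul, neg_one_smul,
    ← sub_eq_add_neg, ← sub_eq_add_neg] at h1
  exact h1

lemma form_sub_right (s t t' : Tm) : ‖φ s t - φ s t'‖ ≤ ‖a s‖ * ‖b t - b t'‖ := by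
  have h1 := h.norm_le s (.add t (.smul (-1) 0 t'))
  rw [h.add_right, h.smul_right, hb.add, hb.smul, qi_neg_one, neg_one_mul, neg_one_smul,
    ← sub_eq_add_neg, ← sub_eq_add_neg] at h1
  exact h1

theorem exists_ext : ∃ f : A × B → ℂ, Continuous f ∧ ∀ s t, f (a s, b t) = φ s t := by
  let i : Tm × Tm → A × B := Prod.map a b
  let τ : TopologicalSpace (Tm × Tm) := TopologicalSpace.induced i inferInstance
  have di : IsDenseInducing i := ⟨⟨rfl⟩, ha.dense.prodMap hb.dense⟩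
  let φ' : Tm × Tm → ℂ := fun u => φ u.1 u.2
  have hest : ∀ u v : Tm × Tm, dist (φ' u) (φ' v) ≤
      ‖a u.1 - a v.1‖ * ‖b u.2‖ + ‖a v.1‖ * ‖b u.2 - b v.2‖ := by
    intro u v
    refine (dist_triangle _ (φ v.1 u.2) _).trans ?_
    rw [dist_eq_norm, dist_eq_norm]
    exact add_le_add (form_sub_left ha hb h _ _ _) (form_sub_right ha hb h _ _ _)
  have hlim : ∀ z : A × B, ∃ c, Tendsto φ' (comap i (𝓝 z)) (𝓝 c) := by
    intro z
    have hne : (comap i (𝓝 z)).NeBot := di.comap_nhds_neBot z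
    have hc : Cauchy (map φ' (comap i (𝓝 z))) := by
      rw [Metric.cauchy_iff]
      refine ⟨hne.map _, fun ε hε => ?_⟩
      have hcont : Continuous fun w : (A × B) × (A × B) =>
          ‖w.1.1 - w.2.1‖ * ‖w.1.2‖ + ‖w.2.1‖ * ‖w.1.2 - w.2.2‖ := by fun_prop
      have h1 := hcont.tendsto (z, z)
      simp only [sub_self, norm_zero, zero_mul, mul_zero, add_zero] at h1
      have h2 := h1.eventually (gt_mem_nhds hε)
      rw [nhds_prod_eq, eventually_prod_iff] at h2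
      obtain ⟨pa, hpa, pb, hpb, hp2⟩ := h2
      refine ⟨φ' '' (i ⁻¹' {w | pa w ∧ pb w}), image_mem_map (preimage_mem_comap
        (hpa.and hpb)), ?_⟩
      rintro _ ⟨u, hu, rfl⟩ _ ⟨v, hv, rfl⟩
      refine lt_of_le_of_lt (hest u v) ?_
      exact hp2 hu.1 hv.2
    obtain ⟨c, hc2⟩ := CompleteSpace.complete hc
    exact ⟨c, hc2⟩
  refine ⟨di.extend φ', di.continuous_extend hlim, fun s t => ?_⟩
  have hcφ : Continuous φ' := by
    rw [continuous_iff_continuousAt]
    intro u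
    obtain ⟨c, hc⟩ := hlim (i u)
    have h1 : 𝓝 u = comap i (𝓝 (i u)) := di.nhds_eq_comap u
    have h2 : Tendsto φ' (𝓝 u) (𝓝 c) := by rw [h1]; exact hc
    have h3 : φ' u = c := eq_of_tendsto_nhds h2
    rw [ContinuousAt, h3]
    exact h2
  exact di.extend_eq hcφ (s, t)

/-- the bilinear form -/
theorem exists_bilin : ∃ F : A →ₗ[ℂ] B →ₗ[ℂ] ℂ, (∀ s t, F (a s) (b t) = φ s t) ∧
    (Continuous fun z : A × B => F z.1 z.2) ∧ ∀ x y, ‖F x y‖ ≤ ‖x‖ * ‖y‖ := by
  obtain ⟨f, hf, hfe⟩ := exists_ext ha hb h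
  have hal : ∀ x x' y, f (x + x', y) = f (x, y) + f (x', y) := by
    have h1 := DenseRange.equalizer (f := Prod.map (Prod.map a a) b)
      ((ha.dense.prodMap ha.dense).prodMap hb.dense)
      (g := fun z : (A × A) × B => f (z.1.1 + z.1.2, z.2))
      (h := fun z => f (z.1.1, z.2) + f (z.1.2, z.2)) (by fun_prop) (by fun_prop)
      (by
        funext z
        simp only [Function.comp_apply, Prod.map_fst, Prod.map_snd]
        rw [← ha.add, hfe, hfe, hfe, h.add_left])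
    exact fun x x' y => congrFun h1 ((x, x'), y)
  have har : ∀ x y y', f (x, y + y') = f (x, y) + f (x, y') := by
    have h1 := DenseRange.equalizer (f := Prod.map a (Prod.map b b))
      (ha.dense.prodMap (hb.dense.prodMap hb.dense))
      (g := fun z : A × (B × B) => f (z.1, z.2.1 + z.2.2))
      (h := fun z => f (z.1, z.2.1) + f (z.1, z.2.2)) (by fun_prop) (by fun_prop)
      (by
        funext z
        simp only [Function.comp_apply, Prod.map_fst, Prod.map_snd]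
        rw [← hb.add, hfe, hfe, hfe, h.add_right])
    exact fun x y y' => congrFun h1 (x, (y, y'))
  have hsl : ∀ (c : ℂ) x y, f (c • x, y) = c • f (x, y) := by
    have h1 := DenseRange.equalizer (f := Prod.map (fun u : ℚ × ℚ => qi u.1 u.2) (Prod.map a b))
      (denseRange_qi.prodMap (ha.dense.prodMap hb.dense))
      (g := fun z : ℂ × (A × B) => f (z.1 • z.2.1, z.2.2))
      (h := fun z => z.1 • f (z.2.1, z.2.2)) (by fun_prop) (by fun_prop)
      (by
        funext z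
        simp only [Function.comp_apply, Prod.map_fst, Prod.map_snd]
        rw [← ha.smul, hfe, hfe, h.smul_left, smul_eq_mul])
    exact fun c x y => congrFun h1 (c, (x, y))
  have hsr : ∀ (c : ℂ) x y, f (x, c • y) = c • f (x, y) := by
    have h1 := DenseRange.equalizer (f := Prod.map (fun u : ℚ × ℚ => qi u.1 u.2) (Prod.map a b))
      (denseRange_qi.prodMap (ha.dense.prodMap hb.dense))
      (g := fun z : ℂ × (A × B) => f (z.2.1, z.1 • z.2.2))
      (h := fun z => z.1 • f (z.2.1, z.2.2)) (by fun_prop) (by fun_prop)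
      (by
        funext z
        simp only [Function.comp_apply, Prod.map_fst, Prod.map_snd]
        rw [← hb.smul, hfe, hfe, h.smul_right, smul_eq_mul])
    exact fun c x y => congrFun h1 (c, (x, y))
  refine ⟨LinearMap.mk₂ ℂ (fun x y => f (x, y)) hal hsl har hsr, fun s t => hfe s t, hf, ?_⟩
  intro x y
  have h1 : ∀ z : A × B, ‖f z‖ ≤ ‖z.1‖ * ‖z.2‖ := by
    intro z
    refine (ha.dense.prodMap hb.dense).induction_on z (isClosed_le (by fun_prop) (by fun_prop)) ?_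
    rintro ⟨s, t⟩
    simp only [Prod.map_apply]
    rw [hfe]
    exact h.norm_le s t
  exact h1 (x, y)

end ext

lemma star_mul_sum {n : ℕ} (m : Fin n → A) (p : Fin n → B) :
    star (∑ i, m i ⊗ₜ[ℂ] p i) * (∑ i, m i ⊗ₜ[ℂ] p i) =
      ∑ i, ∑ j, (star (m i) * m j) ⊗ₜ[ℂ] (star (p i) * p j) := by
  rw [star_sum, Finset.sum_mul_sum]
  simp only [TensorProduct.star_tmul, Algebra.TensorProduct.tmul_mul_tmul]

theorem exists_good {a : Tm → A} {b : Tm → B} (ha : TRep a) (hb : TRep b) {φ : Tm → Tm → ℂ}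
    (h : IsForm a b φ) (hQ : ∀ (n : ℕ) (u : Fin n → Tm × Tm), (QF φ u).im = 0 ∧
      0 ≤ (QF φ u).re ∧ ‖LF φ u‖ ^ 2 ≤ (QF φ u).re) :
    ∃ F : A ⊗[ℂ] B →ₗ[ℂ] ℂ, (∀ s t, F (a s ⊗ₜ b t) = φ s t) ∧ Good F := by
  obtain ⟨F₂, h1, h2, h3⟩ := exists_bilin ha hb h
  let F : A ⊗[ℂ] B →ₗ[ℂ] ℂ := TensorProduct.lift F₂
  have hF : ∀ x y, F (x ⊗ₜ y) = F₂ x y := fun x y => TensorProduct.lift.tmul x y
  have key : ∀ z : A ⊗[ℂ] B, (F (star z * z)).im = 0 ∧ 0 ≤ (F (star z * z)).re ∧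
      ‖F z‖ ^ 2 ≤ (F (star z * z)).re := by
    intro z
    obtain ⟨n, m, p, rfl⟩ := TensorProduct.exists_sum_tmul_eq z
    have e1 : F (star (∑ i, m i ⊗ₜ[ℂ] p i) * (∑ i, m i ⊗ₜ[ℂ] p i)) =
        ∑ i, ∑ j, F₂ (star (m i) * m j) (star (p i) * p j) := by
      rw [star_mul_sum]; simp only [map_sum, hF]
    have e2 : F (∑ i, m i ⊗ₜ[ℂ] p i) = ∑ i, F₂ (m i) (p i) := by
      simp only [map_sum, hF]
    rw [e1, e2]
    have hcont1 : Continuous fun w : (Fin n → A) × (Fin n → B) =>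
        ∑ i, ∑ j, F₂ (star (w.1 i) * w.1 j) (star (w.2 i) * w.2 j) := by
      refine continuous_finsetSum _ fun i _ => continuous_finsetSum _ fun j _ => ?_
      exact h2.comp (f := fun w : (Fin n → A) × (Fin n → B) =>
        (star (w.1 i) * w.1 j, star (w.2 i) * w.2 j)) (by fun_prop)
    have hcont2 : Continuous fun w : (Fin n → A) × (Fin n → B) => ∑ i, F₂ (w.1 i) (w.2 i) := by
      refine continuous_finsetSum _ fun i _ => ?_
      exact h2.comp (f := fun w : (Fin n → A) × (Fin n → B) => (w.1 i, w.2 i)) (by fun_prop)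
    have hd : DenseRange (Prod.map (Pi.map fun _ : Fin n => a) (Pi.map fun _ : Fin n => b)) :=
      (DenseRange.piMap fun _ => ha.dense).prodMap (DenseRange.piMap fun _ => hb.dense)
    have := hd.induction_on (p := fun w : (Fin n → A) × (Fin n → B) =>
      (∑ i, ∑ j, F₂ (star (w.1 i) * w.1 j) (star (w.2 i) * w.2 j)).im = 0 ∧
      0 ≤ (∑ i, ∑ j, F₂ (star (w.1 i) * w.1 j) (star (w.2 i) * w.2 j)).re ∧
      ‖∑ i, F₂ (w.1 i) (w.2 i)‖ ^ 2 ≤
        (∑ i, ∑ j, F₂ (star (w.1 i) * w.1 j) (star (w.2 i) * w.2 j)).re) (m, p) ?_ ?_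
    · exact this
    · refine IsClosed.and ?_ (IsClosed.and ?_ ?_)
      · exact isClosed_eq (Complex.continuous_im.comp hcont1) continuous_const
      · exact isClosed_le continuous_const (Complex.continuous_re.comp hcont1)
      · exact isClosed_le (hcont2.norm.pow 2) (Complex.continuous_re.comp hcont1)
    · rintro ⟨u, v⟩
      have h4 := hQ n (fun i => (u i, v i))
      simp only [QF, LF] at h4
      simp only [Prod.map_apply, Pi.map_apply, ← ha.star, ← ha.mul, ← hb.star, ← hb.mul, h1]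
      exact h4
  refine ⟨F, fun s t => by rw [hF, h1], fun x y => by rw [hF]; exact h3 x y,
    fun z => (key z).1, fun z => (key z).2.1, fun z => (key z).2.2⟩

/-- the converse -/
theorem Good.isForm {a : Tm → A} {b : Tm → B} (ha : TRep a) (hb : TRep b)
    {F : A ⊗[ℂ] B →ₗ[ℂ] ℂ} (hF : Good F) : IsForm a b fun s t => F (a s ⊗ₜ b t) where
  add_left s s' t := by simp only [ha.add, add_tmul, map_add]
  add_right s t t' := by simp only [hb.add, tmul_add, map_add]
  smul_left p q s t := by rw [ha.smul, ← smul_tmul', map_smul, smul_eq_mul]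
  smul_right p q s t := by simp only [hb.smul, tmul_smul, map_smul, smul_eq_mul]
  norm_le s t := hF.bound _ _

theorem Good.QF_eq {a : Tm → A} {b : Tm → B} (ha : TRep a) (hb : TRep b)
    (F : A ⊗[ℂ] B →ₗ[ℂ] ℂ) {n : ℕ} (u : Fin n → Tm × Tm) :
    QF (fun s t => F (a s ⊗ₜ b t)) u =
      F (star (∑ i, a (u i).1 ⊗ₜ[ℂ] b (u i).2) * ∑ i, a (u i).1 ⊗ₜ[ℂ] b (u i).2) := by
  rw [star_mul_sum]
  simp only [QF, map_sum, ha.star, ha.mul, hb.star, hb.mul]

theorem Good.LF_eq {a : Tm → A} {b : Tm → B}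
    (F : A ⊗[ℂ] B →ₗ[ℂ] ℂ) {n : ℕ} (u : Fin n → Tm × Tm) :
    LF (fun s t => F (a s ⊗ₜ b t)) u = F (∑ i, a (u i).1 ⊗ₜ[ℂ] b (u i).2) := by
  simp only [LF, map_sum]

theorem Good.cond {a : Tm → A} {b : Tm → B} (ha : TRep a) (hb : TRep b)
    {F : A ⊗[ℂ] B →ₗ[ℂ] ℂ} (hF : Good F) (n : ℕ) (u : Fin n → Tm × Tm) :
    (QF (fun s t => F (a s ⊗ₜ b t)) u).im = 0 ∧ 0 ≤ (QF (fun s t => F (a s ⊗ₜ b t)) u).re ∧
      ‖LF (fun s t => F (a s ⊗ₜ b t)) u‖ ^ 2 ≤ (QF (fun s t => F (a s ⊗ₜ b t)) u).re := by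
  rw [Good.QF_eq ha hb, Good.LF_eq]
  exact ⟨hF.im _, hF.pos _, hF.ctr _⟩

end Pool.Agent.H658.MT
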