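import Pool.Agent.H658.MT.States
import Pool.Agent.H658.MT.Form

/-! # Every *-homomorphism of the algebraic tensor product into a C*-algebra is a
cross-contraction, and states of the C*-algebra pull back to `Good` functionals -/

set_option autoImplicit false
set_option linter.unusedSectionVars false

open Set Filter Topology TensorProduct
open scoped InnerProductSpace ComplexConjugate

namespace Pool.Agent.H658.MT

section cross

variable {A B : Type*} [NonUnitalCStarAlgebra A] [NonUnitalCStarAlgebra B] {U : Type*}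
  [CStarAlgebra U]

attribute [local instance] CStarAlgebra.spectralOrder CStarAlgebra.spectralOrderedRing

lemma cross_left (j : A ⊗[ℂ] B →⋆ₙₐ[ℂ] U) (a a' : A) (b : B) :
    ‖j ((a * a') ⊗ₜ b)‖ ≤ ‖a‖ * ‖j (a' ⊗ₜ b)‖ := by
  have hpos : ∀ z : A, 0 ≤ z → 0 ≤ j (z ⊗ₜ[ℂ] (star b * b)) := by
    intro z hz
    obtain ⟨w, rfl⟩ := CStarAlgebra.nonneg_iff_eq_star_mul_self.1 hz
    have : j ((star w * w) ⊗ₜ[ℂ] (star b * b)) = star (j (w ⊗ₜ b)) * j (w ⊗ₜ b) := by
      rw [← map_star, ← map_mul, TensorProduct.star_tmul, Algebra.TensorProduct.tmul_mul_tmul]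
    rw [this]
    exact star_mul_self_nonneg _
  have h1 : star a' * (star a * a) * a' ≤ ‖star a * a‖ • (star a' * a') :=
    CStarAlgebra.star_left_conjugate_le_norm_smul (IsSelfAdjoint.star_mul_self a)
  have h2 := hpos _ (sub_nonneg.2 h1)
  rw [TensorProduct.sub_tmul, map_sub, sub_nonneg] at h2
  have h3 : 0 ≤ j ((star a' * (star a * a) * a') ⊗ₜ[ℂ] (star b * b)) := by
    apply hpos
    have : star a' * (star a * a) * a' = star (a * a') * (a * a') := by
      rw [star_mul]; simp only [mul_assoc]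
    rw [this]
    exact star_mul_self_nonneg _
  have h4 := CStarAlgebra.norm_le_norm_of_nonneg_of_le h3 h2
  have e1 : j ((star a' * (star a * a) * a') ⊗ₜ[ℂ] (star b * b)) =
      star (j ((a * a') ⊗ₜ b)) * j ((a * a') ⊗ₜ b) := by
    rw [← map_star, ← map_mul, TensorProduct.star_tmul, Algebra.TensorProduct.tmul_mul_tmul,
      star_mul]
    simp only [mul_assoc]
  have e2 : j ((‖star a * a‖ • (star a' * a')) ⊗ₜ[ℂ] (star b * b)) =
      ((‖a‖ ^ 2 : ℝ) : ℂ) • (star (j (a' ⊗ₜ b)) * j (a' ⊗ₜ b)) := by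
    rw [← map_star, ← map_mul, TensorProduct.star_tmul, Algebra.TensorProduct.tmul_mul_tmul,
      ← map_smul, CStarRing.norm_star_mul_self, ← sq, TensorProduct.smul_tmul', Complex.coe_smul]
  rw [e1, e2, CStarRing.norm_star_mul_self, norm_smul, CStarRing.norm_star_mul_self,
    Complex.norm_real, Real.norm_eq_abs, abs_of_nonneg (sq_nonneg _)] at h4
  refine le_of_sq_le_sq ?_ (by positivity)
  rw [mul_pow]
  nlinarith

lemma cross_right (j : A ⊗[ℂ] B →⋆ₙₐ[ℂ] U) (a : A) (b b' : B) :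
    ‖j (a ⊗ₜ (b * b'))‖ ≤ ‖b‖ * ‖j (a ⊗ₜ b')‖ := by
  have hpos : ∀ z : B, 0 ≤ z → 0 ≤ j ((star a * a) ⊗ₜ[ℂ] z) := by
    intro z hz
    obtain ⟨w, rfl⟩ := CStarAlgebra.nonneg_iff_eq_star_mul_self.1 hz
    have : j ((star a * a) ⊗ₜ[ℂ] (star w * w)) = star (j (a ⊗ₜ w)) * j (a ⊗ₜ w) := by
      rw [← map_star, ← map_mul, TensorProduct.star_tmul, Algebra.TensorProduct.tmul_mul_tmul]
    rw [this]
    exact star_mul_self_nonneg _
  have h1 : star b' * (star b * b) * b' ≤ ‖star b * b‖ • (star b' * b') :=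
    CStarAlgebra.star_left_conjugate_le_norm_smul (IsSelfAdjoint.star_mul_self b)
  have h2 := hpos _ (sub_nonneg.2 h1)
  rw [TensorProduct.tmul_sub, map_sub, sub_nonneg] at h2
  have h3 : 0 ≤ j ((star a * a) ⊗ₜ[ℂ] (star b' * (star b * b) * b')) := by
    apply hpos
    have : star b' * (star b * b) * b' = star (b * b') * (b * b') := by
      rw [star_mul]; simp only [mul_assoc]
    rw [this]
    exact star_mul_self_nonneg _
  have h4 := CStarAlgebra.norm_le_norm_of_nonneg_of_le h3 h2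
  have e1 : j ((star a * a) ⊗ₜ[ℂ] (star b' * (star b * b) * b')) =
      star (j (a ⊗ₜ (b * b'))) * j (a ⊗ₜ (b * b')) := by
    rw [← map_star, ← map_mul, TensorProduct.star_tmul, Algebra.TensorProduct.tmul_mul_tmul,
      star_mul]
    simp only [mul_assoc]
  have e2 : j ((star a * a) ⊗ₜ[ℂ] (‖star b * b‖ • (star b' * b'))) =
      ((‖b‖ ^ 2 : ℝ) : ℂ) • (star (j (a ⊗ₜ b')) * j (a ⊗ₜ b')) := by
    rw [← map_star, ← map_mul, TensorProduct.star_tmul, Algebra.TensorProduct.tmul_mul_tmul,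
      ← map_smul, CStarRing.norm_star_mul_self, ← sq, ← TensorProduct.tmul_smul, Complex.coe_smul]
  rw [e1, e2, CStarRing.norm_star_mul_self, norm_smul, CStarRing.norm_star_mul_self,
    Complex.norm_real, Real.norm_eq_abs, abs_of_nonneg (sq_nonneg _)] at h4
  refine le_of_sq_le_sq ?_ (by positivity)
  rw [mul_pow]
  nlinarith

theorem cross_le (j : A ⊗[ℂ] B →⋆ₙₐ[ℂ] U) (a : A) (b : B) : ‖j (a ⊗ₜ b)‖ ≤ ‖a‖ * ‖b‖ := by
  have h1 : ‖j (a ⊗ₜ b)‖ * ‖j (a ⊗ₜ b)‖ ≤ ‖a‖ * ‖b‖ * ‖j (a ⊗ₜ b)‖ := by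
    rw [← CStarRing.norm_self_mul_star, ← map_star, ← map_mul, TensorProduct.star_tmul,
      Algebra.TensorProduct.tmul_mul_tmul]
    refine (cross_left j _ _ _).trans ?_
    rw [mul_assoc]
    refine mul_le_mul_of_nonneg_left ?_ (norm_nonneg _)
    refine (cross_right j _ _ _).trans ?_
    refine mul_le_mul_of_nonneg_left ?_ (norm_nonneg _)
    rw [← TensorProduct.star_tmul, map_star, norm_star]
  rcases eq_or_lt_of_le (norm_nonneg (j (a ⊗ₜ b))) with h0 | h0
  · rw [← h0]; positivity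
  · exact le_of_mul_le_mul_right h1 h0

/-- every value of a C*-norm is attained by a good functional -/
theorem exists_good_of_norm {p : A ⊗[ℂ] B → ℝ} (hp : IsCStarNorm p) (y : A ⊗[ℂ] B) :
    ∃ F : A ⊗[ℂ] B →ₗ[ℂ] ℂ, Good F ∧ (F (star y * y)).re = p y ^ 2 := by
  obtain ⟨U, iU, j, hj⟩ := exists_embed hp
  obtain ⟨f, h1, h2, h3, h4, h5⟩ := exists_state (j y)
  refine ⟨f ∘ₗ (j : A ⊗[ℂ] B →ₗ[ℂ] U), ⟨?_, ?_, ?_, ?_⟩, ?_⟩
  · intro a b
    exact (h1 _).trans (cross_le j a b)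
  · intro z
    have := h2 (j z)
    rw [← map_star, ← map_mul] at this
    exact this
  · intro z
    have := h3 (j z)
    rw [← map_star, ← map_mul] at this
    exact this
  · intro z
    have := h4 (j z)
    rw [← map_star, ← map_mul] at this
    exact this
  · rw [← map_star, ← map_mul, hj] at h5
    exact h5

end cross

end Pool.Agent.H658.MT
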