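import Pool.Agent.H658.MT.Sel
import Pool.Agent.H658.MT.Form

/-! # A measurable dense family of good functionals -/

set_option autoImplicit false
set_option linter.unusedSectionVars false

open Set Filter Topology TensorProduct
open scoped InnerProductSpace ComplexConjugate

namespace Pool.Agent.H658.MT

universe u v

/-- the compact space of normalised values -/
abbrev KK : Type := Tm × Tm → Metric.closedBall (0 : ℂ) 1

noncomputable instance : Inhabited KK := ⟨fun _ => ⟨0, by simp⟩⟩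

variable {X : Type v} [MeasurableSpace X] {A B : X → Type u} [∀ x, NonUnitalCStarAlgebra (A x)]
  [∀ x, NonUnitalCStarAlgebra (B x)] (a : ∀ x, Tm → A x) (b : ∀ x, Tm → B x)

/-- the values -/
noncomputable def val (x : X) (k : KK) (s t : Tm) : ℂ := (k (s, t) : ℂ) * (‖a x s‖ * ‖b x t‖ : ℝ)

lemma val_cont (x : X) (s t : Tm) : Continuous fun k : KK => val a b x k s t := by
  unfold val
  fun_prop

lemma val_meas (hma : ∀ t, Measurable fun x => ‖a x t‖) (hmb : ∀ t, Measurable fun x => ‖b x t‖)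
    (k : KK) (s t : Tm) : Measurable fun x => val a b x k s t := by
  unfold val
  exact (Complex.measurable_ofReal.comp ((hma s).mul (hmb t))).const_mul _

/-- index type of the conditions -/
abbrev Ix : Type := (Tm × Tm × Tm) ⊕ (Tm × Tm × Tm) ⊕ (ℚ × ℚ × Tm × Tm) ⊕ (ℚ × ℚ × Tm × Tm) ⊕
  (Σ n : ℕ, (Fin n → Tm × Tm)) ⊕ (Σ n : ℕ, (Fin n → Tm × Tm)) ⊕ (Σ n : ℕ, (Fin n → Tm × Tm))

/-- the conditions -/
noncomputable def cond (i : Ix) (φ : Tm → Tm → ℂ) : ℝ :=
  match i with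
  | .inl (s, s', t) => ‖φ (.add s s') t - (φ s t + φ s' t)‖
  | .inr (.inl (s, t, t')) => ‖φ s (.add t t') - (φ s t + φ s t')‖
  | .inr (.inr (.inl (p, q, s, t))) => ‖φ (.smul p q s) t - qi p q * φ s t‖
  | .inr (.inr (.inr (.inl (p, q, s, t)))) => ‖φ s (.smul p q t) - qi p q * φ s t‖
  | .inr (.inr (.inr (.inr (.inl ⟨_, u⟩)))) => |(QF φ u).im|
  | .inr (.inr (.inr (.inr (.inr (.inl ⟨_, u⟩))))) => -(QF φ u).re
  | .inr (.inr (.inr (.inr (.inr (.inr ⟨_, u⟩))))) => ‖LF φ u‖ ^ 2 - (QF φ u).re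

lemma cond_cont (i : Ix) (x : X) : Continuous fun k : KK => cond i (val a b x k) := by
  have h := val_cont a b x
  have hQ : ∀ {n : ℕ} (u : Fin n → Tm × Tm), Continuous fun k : KK => QF (val a b x k) u :=
    fun u => continuous_finsetSum _ fun i _ => continuous_finsetSum _ fun j _ => h _ _
  have hL : ∀ {n : ℕ} (u : Fin n → Tm × Tm), Continuous fun k : KK => LF (val a b x k) u :=
    fun u => continuous_finsetSum _ fun i _ => h _ _
  rcases i with ⟨s, s', t⟩ | ⟨s, t, t'⟩ | ⟨p, q, s, t⟩ | ⟨p, q, s, t⟩ | ⟨n, u⟩ | ⟨n, u⟩ | ⟨n, u⟩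
  · exact ((h _ _).sub ((h _ _).add (h _ _))).norm
  · exact ((h _ _).sub ((h _ _).add (h _ _))).norm
  · exact ((h _ _).sub (continuous_const.mul (h _ _))).norm
  · exact ((h _ _).sub (continuous_const.mul (h _ _))).norm
  · exact (Complex.continuous_im.comp (hQ u)).abs
  · exact (Complex.continuous_re.comp (hQ u)).neg
  · exact ((hL u).norm.pow 2).sub (Complex.continuous_re.comp (hQ u))

lemma cond_meas (hma : ∀ t, Measurable fun x => ‖a x t‖) (hmb : ∀ t, Measurable fun x => ‖b x t‖)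
    (i : Ix) (k : KK) : Measurable fun x => cond i (val a b x k) := by
  have h := val_meas a b hma hmb k
  have hQ : ∀ {n : ℕ} (u : Fin n → Tm × Tm), Measurable fun x => QF (val a b x k) u :=
    fun u => Finset.measurable_fun_sum _ fun i _ => Finset.measurable_fun_sum _ fun j _ => h _ _
  have hL : ∀ {n : ℕ} (u : Fin n → Tm × Tm), Measurable fun x => LF (val a b x k) u :=
    fun u => Finset.measurable_fun_sum _ fun i _ => h _ _
  rcases i with ⟨s, s', t⟩ | ⟨s, t, t'⟩ | ⟨p, q, s, t⟩ | ⟨p, q, s, t⟩ | ⟨n, u⟩ | ⟨n, u⟩ | ⟨n, u⟩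
  · exact ((h _ _).sub ((h _ _).add (h _ _))).norm
  · exact ((h _ _).sub ((h _ _).add (h _ _))).norm
  · exact ((h _ _).sub ((h _ _).const_mul _)).norm
  · exact ((h _ _).sub ((h _ _).const_mul _)).norm
  · exact (Complex.measurable_im.comp (hQ u)).abs
  · exact (Complex.measurable_re.comp (hQ u)).neg
  · exact ((hL u).norm.pow_const 2).sub (Complex.measurable_re.comp (hQ u))

/-- the set of the values of good functionals -/
def SS (x : X) : Set KK := {k | ∀ i, cond i (val a b x k) ≤ 0}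

lemma zero_mem_SS (x : X) : (default : KK) ∈ SS a b x := by
  have h0 : ∀ s t, val a b x default s t = 0 := by
    intro s t
    change (0 : ℂ) * _ = 0
    rw [zero_mul]
  have hQ : ∀ {n : ℕ} (u : Fin n → Tm × Tm), QF (val a b x default) u = 0 := fun u =>
    Finset.sum_eq_zero fun i _ => Finset.sum_eq_zero fun j _ => h0 _ _
  have hL : ∀ {n : ℕ} (u : Fin n → Tm × Tm), LF (val a b x default) u = 0 := fun u =>
    Finset.sum_eq_zero fun i _ => h0 _ _
  intro i
  rcases i with ⟨s, s', t⟩ | ⟨s, t, t'⟩ | ⟨p, q, s, t⟩ | ⟨p, q, s, t⟩ | ⟨n, u⟩ | ⟨n, u⟩ | ⟨n, u⟩ <;>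
  simp [cond, h0, hQ, hL]

lemma isClosed_SS (x : X) : IsClosed (SS a b x) := by
  have : SS a b x = ⋂ i, {k | cond i (val a b x k) ≤ 0} := by ext k; simp [SS]
  rw [this]
  exact isClosed_iInter fun i => isClosed_le (cond_cont a b i x) continuous_const

lemma meas_SS (hma : ∀ t, Measurable fun x => ‖a x t‖) (hmb : ∀ t, Measurable fun x => ‖b x t‖)
    (C : Set KK) (hC : IsClosed C) : MeasurableSet {x | (SS a b x ∩ C).Nonempty} := by
  rcases C.eq_empty_or_nonempty with rfl | hne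
  · simp
  let _ : MetricSpace KK := TopologicalSpace.metrizableSpaceMetric KK
  have h1 := measurableSet_feas (X := X) (K := KK) (ι := Option Ix)
    (fun i x k => match i with
      | none => Metric.infDist k C
      | some i => cond i (val a b x k)) (by
        rintro (_ | i) k
        · exact measurable_const
        · exact cond_meas a b hma hmb i k) (by
        rintro (_ | i) x
        · exact Metric.continuous_infDist_pt C
        · exact cond_cont a b i x)
  refine (congrArg MeasurableSet (Set.ext fun x => ?_)).mpr h1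
  change (∃ k, k ∈ SS a b x ∧ k ∈ C) ↔ ∃ k, ∀ i, _ ≤ (0 : ℝ)
  constructor
  · rintro ⟨k, hk, hkC⟩
    refine ⟨k, ?_⟩
    rintro (_ | i)
    · exact (Metric.infDist_zero_of_mem hkC).le
    · exact hk i
  · rintro ⟨k, hk⟩
    refine ⟨k, fun i => hk (some i), ?_⟩
    rw [hC.mem_iff_infDist_zero hne]
    exact le_antisymm (hk none) Metric.infDist_nonneg

lemma good_of_SS {x : X} (ha : TRep (a x)) (hb : TRep (b x)) {k : KK} (hk : k ∈ SS a b x) :
    ∃ F : A x ⊗[ℂ] B x →ₗ[ℂ] ℂ, (∀ s t, F (a x s ⊗ₜ b x t) = val a b x k s t) ∧ Good F := by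
  refine exists_good ha hb (φ := val a b x k) ?_ ?_
  · refine ⟨fun s s' t => ?_, fun s t t' => ?_, fun p q s t => ?_, fun p q s t => ?_, fun s t => ?_⟩
    · exact sub_eq_zero.1 (norm_le_zero_iff.1 (hk (.inl (s, s', t))))
    · exact sub_eq_zero.1 (norm_le_zero_iff.1 (hk (.inr (.inl (s, t, t')))))
    · exact sub_eq_zero.1 (norm_le_zero_iff.1 (hk (.inr (.inr (.inl (p, q, s, t))))))
    · exact sub_eq_zero.1 (norm_le_zero_iff.1 (hk (.inr (.inr (.inr (.inl (p, q, s, t)))))))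
    · unfold val
      rw [norm_mul, Complex.norm_real, Real.norm_eq_abs, abs_of_nonneg (by positivity)]
      have h1 : ‖(k (s, t) : ℂ)‖ ≤ 1 := by
        exact mem_closedBall_zero_iff.1 (k (s, t)).2
      have h2 : 0 ≤ ‖a x s‖ * ‖b x t‖ := by positivity
      nlinarith
  · intro n u
    refine ⟨?_, ?_, ?_⟩
    · exact abs_nonpos_iff.1 (hk (.inr (.inr (.inr (.inr (.inl ⟨n, u⟩))))))
    · have := hk (.inr (.inr (.inr (.inr (.inr (.inl ⟨n, u⟩))))))
      simp only [cond] at this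
      linarith
    · have := hk (.inr (.inr (.inr (.inr (.inr (.inr ⟨n, u⟩))))))
      simp only [cond] at this
      linarith

lemma SS_of_good {x : X} (ha : TRep (a x)) (hb : TRep (b x)) {F : A x ⊗[ℂ] B x →ₗ[ℂ] ℂ}
    (hF : Good F) : ∃ k ∈ SS a b x, ∀ s t, F (a x s ⊗ₜ b x t) = val a b x k s t := by
  have h1 : ∀ q : Tm × Tm, F (a x q.1 ⊗ₜ b x q.2) / ((‖a x q.1‖ * ‖b x q.2‖ : ℝ) : ℂ) ∈
      Metric.closedBall (0 : ℂ) 1 := by
    intro q
    rw [mem_closedBall_zero_iff, norm_div, Complex.norm_real, Real.norm_eq_abs,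
      abs_of_nonneg (by positivity)]
    exact div_le_one_of_le₀ (hF.bound _ _) (by positivity)
  let k : KK := fun q => ⟨_, h1 q⟩
  have h2 : ∀ s t, F (a x s ⊗ₜ b x t) = val a b x k s t := by
    intro s t
    change _ = F (a x s ⊗ₜ b x t) / ((‖a x s‖ * ‖b x t‖ : ℝ) : ℂ) * _
    by_cases h0 : ‖a x s‖ * ‖b x t‖ = 0
    · have h3 := hF.bound (a x s) (b x t)
      rw [h0] at h3
      rw [norm_le_zero_iff.1 h3]; simp
    · rw [div_mul_cancel₀]
      exact_mod_cast h0
  have h3 : val a b x k = fun s t => F (a x s ⊗ₜ b x t) := by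
    funext s t; exact (h2 s t).symm
  refine ⟨k, ?_, h2⟩
  have hI := hF.isForm ha hb
  have hc := hF.cond ha hb
  intro i
  rw [h3]
  rcases i with ⟨s, s', t⟩ | ⟨s, t, t'⟩ | ⟨p, q, s, t⟩ | ⟨p, q, s, t⟩ | ⟨n, u⟩ | ⟨n, u⟩ | ⟨n, u⟩
  · exact norm_le_zero_iff.2 (sub_eq_zero.2 (hI.add_left s s' t))
  · exact norm_le_zero_iff.2 (sub_eq_zero.2 (hI.add_right s t t'))
  · exact norm_le_zero_iff.2 (sub_eq_zero.2 (hI.smul_left p q s t))
  · exact norm_le_zero_iff.2 (sub_eq_zero.2 (hI.smul_right p q s t))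
  · exact abs_nonpos_iff.2 (hc n u).1
  · exact neg_nonpos.2 (hc n u).2.1
  · exact sub_nonpos.2 (hc n u).2.2

theorem exists_family (ha : ∀ x, TRep (a x)) (hb : ∀ x, TRep (b x))
    (hma : ∀ t, Measurable fun x => ‖a x t‖) (hmb : ∀ t, Measurable fun x => ‖b x t‖) :
    ∃ F : ℕ → ∀ x, (A x ⊗[ℂ] B x →ₗ[ℂ] ℂ), (∀ n x, Good (F n x)) ∧
      (∀ n s t, Measurable fun x => F n x (a x s ⊗ₜ b x t)) ∧
      ∀ x (G : A x ⊗[ℂ] B x →ₗ[ℂ] ℂ), Good G → ∀ (P : Finset (Tm × Tm)) (ε : ℝ), 0 < ε →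
        ∃ n, ∀ q ∈ P, ‖F n x (a x q.1 ⊗ₜ b x q.2) - G (a x q.1 ⊗ₜ b x q.2)‖ < ε := by
  obtain ⟨f, hf, hf2⟩ := exists_castaing (SS a b) (isClosed_SS a b) (meas_SS a b hma hmb)
  have hf3 := fun x => hf2 x ⟨_, zero_mem_SS a b x⟩
  choose F hF1 hF2 using fun n x => good_of_SS a b (ha x) (hb x) ((hf3 x).1 n)
  refine ⟨F, hF2, fun n s t => ?_, fun x G hG P ε hε => ?_⟩
  · simp only [hF1]
    unfold val
    have h1 : Measurable fun x => ((f n x (s, t) : Metric.closedBall (0 : ℂ) 1) : ℂ) :=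
      measurable_subtype_coe.comp ((measurable_pi_apply (s, t)).comp (hf n))
    exact h1.mul (Complex.measurable_ofReal.comp ((hma s).mul (hmb t)))
  · obtain ⟨k, hk, hkG⟩ := SS_of_good a b (ha x) (hb x) hG
    have h1 := (hf3 x).2 hk
    have h2 : IsOpen {k' : KK | ∀ q ∈ P, ‖val a b x k' q.1 q.2 - val a b x k q.1 q.2‖ < ε} := by
      have : {k' : KK | ∀ q ∈ P, ‖val a b x k' q.1 q.2 - val a b x k q.1 q.2‖ < ε} =
          ⋂ q ∈ P, {k' : KK | ‖val a b x k' q.1 q.2 - val a b x k q.1 q.2‖ < ε} := by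
        ext k'; simp
      rw [this]
      exact isOpen_biInter_finset fun q _ =>
        isOpen_lt ((val_cont a b x q.1 q.2).sub continuous_const).norm continuous_const
    obtain ⟨k', hk', ⟨n, rfl⟩⟩ := mem_closure_iff.1 h1 _ h2 (by
      intro q _; rw [sub_self, norm_zero]; exact hε)
    refine ⟨n, fun q hq => ?_⟩
    rw [hF1, hkG]
    exact hk' q hq

end Pool.Agent.H658.MT
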