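import Mathlib

/-! # The GNS construction for a positive functional on a *-algebra -/

set_option autoImplicit false

open Set Filter Topology
open scoped InnerProductSpace ComplexConjugate

namespace Pool.Agent.H658.MT

universe u

variable {𝒜 : Type u} [NonUnitalRing 𝒜] [StarRing 𝒜] [Module ℂ 𝒜] [IsScalarTower ℂ 𝒜 𝒜]
  [SMulCommClass ℂ 𝒜 𝒜] [StarModule ℂ 𝒜]

/-- positive functional on a *-algebra -/
structure PosF (F : 𝒜 →ₗ[ℂ] ℂ) : Prop where
  im : ∀ z, (F (star z * z)).im = 0
  pos : ∀ z, 0 ≤ (F (star z * z)).re

lemma PosF.conj {F : 𝒜 →ₗ[ℂ] ℂ} (hF : PosF F) (y z : 𝒜) :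
    F (star z * y) = conj (F (star y * z)) := by
  have h1 := hF.im (y + z)
  have h2 := hF.im (y + Complex.I • z)
  have hy := hF.im y
  have hz := hF.im z
  simp only [star_add, add_mul, mul_add, map_add, Complex.add_im, hy, hz] at h1
  simp only [star_add, star_smul, add_mul, mul_add, map_add, mul_smul_comm, smul_mul_assoc,
    map_smul, smul_eq_mul, Complex.add_im, hy] at h2
  have h3 : (Complex.I * (star Complex.I * F (star z * z))).im = 0 := by
    rw [← mul_assoc]
    simp [hz]
  rw [h3] at h2
  simp only [Complex.star_def, Complex.conj_I, Complex.mul_im, Complex.I_re, Complex.I_im,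
    Complex.neg_im, Complex.neg_re] at h2
  apply Complex.ext
  · rw [Complex.conj_re]; linarith
  · rw [Complex.conj_im]; linarith

section construction

variable {F : 𝒜 →ₗ[ℂ] ℂ} (hF : PosF F)

/-- type synonym for the pre-Hilbert space -/
@[nolint unusedArguments]
def PreG (_ : PosF F) : Type u := 𝒜

instance : AddCommGroup (PreG hF) := inferInstanceAs (AddCommGroup 𝒜)
instance : Module ℂ (PreG hF) := inferInstanceAs (Module ℂ 𝒜)

/-- the identity map -/
def toG : 𝒜 ≃ₗ[ℂ] PreG hF := LinearEquiv.refl ℂ _

/-- the inner product -/
noncomputable abbrev coreG : PreInnerProductSpace.Core ℂ (PreG hF) where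
  inner a b := F (star ((toG hF).symm a) * (toG hF).symm b)
  conj_inner_symm a b := by
    rw [hF.conj]
    simp
  re_inner_nonneg a := hF.pos _
  add_left _ _ _ := by simp only [map_add, star_add, add_mul]
  smul_left _ _ _ := by
    simp only [map_smul, star_smul, smul_mul_assoc, smul_eq_mul]; rfl

noncomputable instance : SeminormedAddCommGroup (PreG hF) :=
  InnerProductSpace.Core.toSeminormedAddCommGroup (c := coreG hF)
noncomputable instance : InnerProductSpace ℂ (PreG hF) :=
  InnerProductSpace.ofCore (coreG hF)

lemma innerG (a b : PreG hF) : ⟪a, b⟫_ℂ = F (star ((toG hF).symm a) * (toG hF).symm b) := rfl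

lemma normG_sq (a : PreG hF) : ‖a‖ ^ 2 = (F (star ((toG hF).symm a) * (toG hF).symm a)).re := by
  rw [← innerG hF a a, ← @inner_self_eq_norm_sq ℂ]
  rfl

end construction

open UniformSpace in
theorem exists_gns {F : 𝒜 →ₗ[ℂ] ℂ} (hF : PosF F)
    (hb : ∀ y : 𝒜, ∃ C : ℝ, 0 ≤ C ∧ ∀ z,
      (F (star (y * z) * (y * z))).re ≤ C ^ 2 * (F (star z * z)).re) :
    ∃ (K : Type u) (_ : NormedAddCommGroup K) (_ : InnerProductSpace ℂ K) (_ : CompleteSpace K)
      (η : 𝒜 →ₗ[ℂ] K) (π : 𝒜 →⋆ₙₐ[ℂ] (K →L[ℂ] K)),
      (∀ y z, ⟪η y, η z⟫_ℂ = F (star y * z)) ∧ (∀ y z, π y (η z) = η (y * z)) ∧ DenseRange η ∧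
      ∀ y (C : ℝ), 0 ≤ C → (∀ z, (F (star (y * z) * (y * z))).re ≤ C ^ 2 * (F (star z * z)).re) →
        ‖π y‖ ≤ C := by
  choose C hC0 hC using hb
  let L : 𝒜 → PreG hF →L[ℂ] PreG hF := fun y =>
    ((toG hF).toLinearMap ∘ₗ LinearMap.mulLeft ℂ y ∘ₗ (toG hF).symm.toLinearMap).mkContinuous
      (C y) fun z => by
        have h1 := hC y ((toG hF).symm z)
        refine le_of_sq_le_sq ?_ (by have := hC0 y; positivity)
        rw [mul_pow, normG_sq, normG_sq]
        simpa using h1
  have hL : ∀ y z, L y z = toG hF (y * (toG hF).symm z) := fun y z => rfl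
  let K := Completion (PreG hF)
  let η : 𝒜 →ₗ[ℂ] K :=
    (Completion.toComplL (𝕜 := ℂ) (E := PreG hF)).toLinearMap ∘ₗ (toG hF).toLinearMap
  have hη : ∀ y, η y = ((toG hF y : PreG hF) : K) := fun y => rfl
  have hcl : ∀ S T : K →L[ℂ] K, IsClosed {w | S w = T w} := fun S T =>
    isClosed_eq S.continuous T.continuous
  have hcl2 : ∀ S T : K →L[ℂ] K, IsClosed {w : K × K | ⟪S w.1, w.2⟫_ℂ = ⟪w.1, T w.2⟫_ℂ} :=
    fun S T => isClosed_eq ((S.continuous.comp continuous_fst).inner continuous_snd)
      (continuous_fst.inner (T.continuous.comp continuous_snd))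
  let π : 𝒜 →⋆ₙₐ[ℂ] (K →L[ℂ] K) :=
    { toFun := fun y => (L y).completion
      map_smul' := fun c y => by
        refine ContinuousLinearMap.ext fun w => ?_
        induction w using Completion.induction_on with
        | hp => exact hcl _ _
        | ih w =>
          change (L (c • y)).completion (w : K) = c • (L y).completion (w : K)
          rw [ContinuousLinearMap.completion_apply_coe, ContinuousLinearMap.completion_apply_coe,
            hL, hL, smul_mul_assoc, map_smul, Completion.coe_smul]
      map_zero' := by
        refine ContinuousLinearMap.ext fun w => ?_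
        induction w using Completion.induction_on with
        | hp => exact hcl _ _
        | ih w =>
          change (L 0).completion (w : K) = (0 : K)
          rw [ContinuousLinearMap.completion_apply_coe, hL, zero_mul, map_zero,
            Completion.coe_zero]
      map_add' := fun y y' => by
        refine ContinuousLinearMap.ext fun w => ?_
        induction w using Completion.induction_on with
        | hp => exact hcl _ _
        | ih w =>
          change (L (y + y')).completion (w : K) =
            (L y).completion (w : K) + (L y').completion (w : K)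
          rw [ContinuousLinearMap.completion_apply_coe, ContinuousLinearMap.completion_apply_coe,
            ContinuousLinearMap.completion_apply_coe, hL, hL, hL, add_mul, map_add,
            Completion.coe_add]
      map_mul' := fun y y' => by
        refine ContinuousLinearMap.ext fun w => ?_
        induction w using Completion.induction_on with
        | hp => exact hcl _ _
        | ih w =>
          change (L (y * y')).completion (w : K) =
            (L y).completion ((L y').completion (w : K))
          rw [ContinuousLinearMap.completion_apply_coe, ContinuousLinearMap.completion_apply_coe,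
            ContinuousLinearMap.completion_apply_coe, hL, hL, hL, LinearEquiv.symm_apply_apply,
            mul_assoc]
      map_star' := fun y => by
        refine (ContinuousLinearMap.eq_adjoint_iff _ _).mpr ?_
        intro v w
        induction v, w using Completion.induction_on₂ with
        | hp => exact hcl2 _ _
        | ih v w =>
          rw [ContinuousLinearMap.completion_apply_coe, ContinuousLinearMap.completion_apply_coe,
            hL, hL, Completion.inner_coe, Completion.inner_coe, innerG, innerG,
            LinearEquiv.symm_apply_apply, LinearEquiv.symm_apply_apply, star_mul, star_star,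
            mul_assoc] }
  have hπ : ∀ y z, π y (η z) = η (y * z) := by
    intro y z
    rw [hη, hη]
    change (L y).completion _ = _
    rw [ContinuousLinearMap.completion_apply_coe, hL]
    simp
  have hdense : DenseRange η := by
    have h1 : DenseRange ((↑) : PreG hF → K) := Completion.denseRange_coe
    have h2 : Function.Surjective (toG hF) := (toG hF).surjective
    exact h1.comp h2.denseRange (Completion.continuous_coe _)
  have hinner : ∀ y z, ⟪η y, η z⟫_ℂ = F (star y * z) := by
    intro y z
    rw [hη, hη, Completion.inner_coe, innerG]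
    simp
  refine ⟨K, inferInstance, inferInstance, inferInstance, η, π, hinner, hπ, hdense, ?_⟩
  intro y c hc hz
  refine ContinuousLinearMap.opNorm_le_bound _ hc fun w => ?_
  refine hdense.induction_on w (isClosed_le (ContinuousLinearMap.continuous _).norm
    (continuous_const.mul continuous_norm)) fun z => ?_
  rw [hπ]
  refine le_of_sq_le_sq ?_ (by positivity)
  have e1 : ∀ y : 𝒜, ‖η y‖ ^ 2 = (F (star y * y)).re := by
    intro y
    rw [← hinner, ← @inner_self_eq_norm_sq ℂ]; rfl
  rw [mul_pow, e1, e1]
  exact hz z

end Pool.Agent.H658.MT
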