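import Pool.Agent.H658.MT.Univ

/-! # Good functionals separate the points of the algebraic tensor product -/

set_option autoImplicit false
set_option linter.unusedSectionVars false

open Set Filter Topology TensorProduct
open scoped InnerProductSpace ComplexConjugate

namespace Pool.Agent.H658.MT

universe u v

section inj

variable {A B : Type u} [NonUnitalCStarAlgebra A] [NonUnitalCStarAlgebra B]
variable {H : Type v} [NormedAddCommGroup H] [InnerProductSpace ℂ H] [CompleteSpace H]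

lemma tensor_sep (f : H → H → A →ₗ[ℂ] ℂ) (g : H → H → B →ₗ[ℂ] ℂ)
    (hf : ∀ a, (∀ ξ ξ', f ξ ξ' a = 0) → a = 0) (hg : ∀ b, (∀ η η', g η η' b = 0) → b = 0)
    (y : A ⊗[ℂ] B) (hy : ∀ ξ ξ' η η', (LinearMap.mul' ℂ ℂ ∘ₗ
      TensorProduct.map (f ξ ξ') (g η η')) y = 0) : y = 0 := by
  classical
  let β := Module.Free.chooseBasis ℂ B
  let e := TensorProduct.equivFinsuppOfBasisRight (M := A) β
  let bf : H → H → A ⊗[ℂ] B →ₗ[ℂ] B := fun ξ ξ' =>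
    (TensorProduct.lid ℂ B).toLinearMap ∘ₗ TensorProduct.map (f ξ ξ') LinearMap.id
  have h1 : ∀ ξ ξ', bf ξ ξ' y = 0 := by
    intro ξ ξ'
    refine hg _ fun η η' => ?_
    rw [← hy ξ ξ' η η']
    have : (g η η') ∘ₗ bf ξ ξ' = LinearMap.mul' ℂ ℂ ∘ₗ TensorProduct.map (f ξ ξ') (g η η') := by
      refine TensorProduct.ext' fun x w => ?_
      simp [bf]
    exact LinearMap.congr_fun this y
  have h2 : ∀ ξ ξ' i, f ξ ξ' (e y i) = β.repr (bf ξ ξ' y) i := by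
    intro ξ ξ' i
    have : (f ξ ξ') ∘ₗ (Finsupp.lapply i) ∘ₗ e.toLinearMap =
        (Finsupp.lapply i) ∘ₗ β.repr.toLinearMap ∘ₗ bf ξ ξ' := by
      refine TensorProduct.ext' fun x w => ?_
      simp [bf, e, mul_comm]
    exact LinearMap.congr_fun this y
  have h3 : e y = 0 := by
    ext i
    refine hf _ fun ξ ξ' => ?_
    rw [h2, h1]
    simp
  exact e.map_eq_zero_iff.1 h3

variable (ρ : A →⋆ₙₐ[ℂ] (H →L[ℂ] H)) (σ : B →⋆ₙₐ[ℂ] (H →L[ℂ] H))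

/-- the action of the algebraic tensor product on the algebraic tensor product -/
noncomputable def op : A ⊗[ℂ] B →ₗ[ℂ] (H ⊗[ℂ] H →ₗ[ℂ] H ⊗[ℂ] H) :=
  TensorProduct.lift ((TensorProduct.mapBilinear (RingHom.id ℂ) H H H H).compl₁₂
    ((ContinuousLinearMap.coeLM ℂ (M := H) (N₃ := H)) ∘ₗ (ρ : A →ₗ[ℂ] (H →L[ℂ] H)))
    ((ContinuousLinearMap.coeLM ℂ (M := H) (N₃ := H)) ∘ₗ (σ : B →ₗ[ℂ] (H →L[ℂ] H))))

lemma op_tmul (a : A) (b : B) (ξ η : H) : op ρ σ (a ⊗ₜ b) (ξ ⊗ₜ η) = (ρ a ξ) ⊗ₜ (σ b η) := by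
  simp [op]

lemma op_mul (y z : A ⊗[ℂ] B) (v : H ⊗[ℂ] H) : op ρ σ (y * z) v = op ρ σ y (op ρ σ z v) := by
  induction y using TensorProduct.induction_on with
  | zero => simp
  | add y y' h1 h2 => rw [add_mul, map_add, map_add, LinearMap.add_apply, LinearMap.add_apply, h1, h2]
  | tmul a b =>
    induction z using TensorProduct.induction_on with
    | zero => simp
    | add y y' h1 h2 =>
      rw [mul_add, map_add, map_add, LinearMap.add_apply, LinearMap.add_apply, h1, h2, map_add]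
    | tmul a' b' =>
      induction v using TensorProduct.induction_on with
      | zero => simp
      | add y y' h1 h2 => simp only [map_add, h1, h2]
      | tmul ξ η =>
        rw [Algebra.TensorProduct.tmul_mul_tmul, op_tmul, op_tmul, op_tmul, map_mul, map_mul]
        rfl

lemma op_star (y : A ⊗[ℂ] B) (v w : H ⊗[ℂ] H) :
    ⟪op ρ σ (star y) v, w⟫_ℂ = ⟪v, op ρ σ y w⟫_ℂ := by
  induction y using TensorProduct.induction_on with
  | zero => simp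
  | add y y' h1 h2 =>
    rw [star_add, map_add, map_add, LinearMap.add_apply, LinearMap.add_apply, inner_add_left,
      inner_add_right, h1, h2]
  | tmul a b =>
    induction v using TensorProduct.induction_on with
    | zero => simp
    | add y y' h1 h2 => simp only [map_add, inner_add_left, h1, h2]
    | tmul ξ η =>
      induction w using TensorProduct.induction_on with
      | zero => simp
      | add y y' h1 h2 => simp only [map_add, inner_add_right, h1, h2]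
      | tmul ξ' η' =>
        rw [TensorProduct.star_tmul, op_tmul, op_tmul, TensorProduct.inner_tmul,
          TensorProduct.inner_tmul, map_star, map_star, ContinuousLinearMap.star_eq_adjoint,
          ContinuousLinearMap.star_eq_adjoint, ContinuousLinearMap.adjoint_inner_left,
          ContinuousLinearMap.adjoint_inner_left]

/-- vector functionals -/
noncomputable def vf (v w : H ⊗[ℂ] H) : A ⊗[ℂ] B →ₗ[ℂ] ℂ :=
  (innerₛₗ ℂ v) ∘ₗ (LinearMap.applyₗ w) ∘ₗ op ρ σ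

lemma vf_apply (v w : H ⊗[ℂ] H) (y : A ⊗[ℂ] B) : vf ρ σ v w y = ⟪v, op ρ σ y w⟫_ℂ := rfl

lemma vf_sq (v : H ⊗[ℂ] H) (z : A ⊗[ℂ] B) :
    vf ρ σ v v (star z * z) = ((‖op ρ σ z v‖ ^ 2 : ℝ) : ℂ) := by
  rw [vf_apply, op_mul, ← op_star, star_star]
  have := inner_self_eq_norm_sq_to_K (𝕜 := ℂ) (op ρ σ z v)
  rw [this]
  push_cast
  rfl

lemma vf_good (hρ : ∀ a, ‖ρ a‖ ≤ ‖a‖) (hσ : ∀ b, ‖σ b‖ ≤ ‖b‖) (ξ η : H) (h1 : ‖ξ‖ ≤ 1)
    (h2 : ‖η‖ ≤ 1) : Good (vf ρ σ (ξ ⊗ₜ η) (ξ ⊗ₜ η)) where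
  bound a b := by
    rw [vf_apply, op_tmul]
    refine (norm_inner_le_norm (𝕜 := ℂ) (ξ ⊗ₜ[ℂ] η) ((ρ a ξ) ⊗ₜ[ℂ] (σ b η))).trans ?_
    rw [TensorProduct.norm_tmul, TensorProduct.norm_tmul]
    have h3 : ‖ρ a ξ‖ ≤ ‖a‖ := by
      refine ((ρ a).le_opNorm ξ).trans ?_
      have := hρ a
      have := norm_nonneg (ρ a)
      nlinarith [norm_nonneg ξ]
    have h4 : ‖σ b η‖ ≤ ‖b‖ := by
      refine ((σ b).le_opNorm η).trans ?_
      have := hσ b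
      have := norm_nonneg (σ b)
      nlinarith [norm_nonneg η]
    calc ‖ξ‖ * ‖η‖ * (‖ρ a ξ‖ * ‖σ b η‖) ≤ 1 * 1 * (‖a‖ * ‖b‖) := by gcongr
      _ = _ := by ring
  im z := by rw [vf_sq, Complex.ofReal_im]
  pos z := by rw [vf_sq, Complex.ofReal_re]; positivity
  ctr z := by
    rw [vf_sq, Complex.ofReal_re, vf_apply]
    have h3 := norm_inner_le_norm (𝕜 := ℂ) (ξ ⊗ₜ[ℂ] η) (op ρ σ z (ξ ⊗ₜ η))
    have h4 : ‖ξ ⊗ₜ[ℂ] η‖ ≤ 1 := by
      rw [TensorProduct.norm_tmul]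
      exact mul_le_one₀ h1 (norm_nonneg _) h2
    have h5 : ‖⟪ξ ⊗ₜ[ℂ] η, op ρ σ z (ξ ⊗ₜ η)⟫_ℂ‖ ≤ ‖op ρ σ z (ξ ⊗ₜ η)‖ :=
      h3.trans (mul_le_of_le_one_left (norm_nonneg _) h4)
    gcongr

theorem eq_zero_of_good (hρ : ∀ a, ‖ρ a‖ ≤ ‖a‖) (hσ : ∀ b, ‖σ b‖ ≤ ‖b‖)
    (hρi : ∀ a, ρ a = 0 → a = 0) (hσi : ∀ b, σ b = 0 → b = 0) (y : A ⊗[ℂ] B)
    (hy : ∀ G : A ⊗[ℂ] B →ₗ[ℂ] ℂ, Good G → (G (star y * y)).re ≤ 0) : y = 0 := by
  have h1 : ∀ ξ η : H, ‖ξ‖ ≤ 1 → ‖η‖ ≤ 1 → op ρ σ y (ξ ⊗ₜ η) = 0 := by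
    intro ξ η h1 h2
    have h3 := hy _ (vf_good ρ σ hρ hσ ξ η h1 h2)
    rw [vf_sq, Complex.ofReal_re] at h3
    have h4 : ‖op ρ σ y (ξ ⊗ₜ η)‖ = 0 := by
      have := norm_nonneg (op ρ σ y (ξ ⊗ₜ η))
      nlinarith
    exact norm_eq_zero.1 h4
  have h2 : ∀ ξ η : H, op ρ σ y (ξ ⊗ₜ η) = 0 := by
    intro ξ η
    have hn : ∀ ξ : H, ‖((1 + ‖ξ‖ : ℝ) : ℂ)⁻¹ • ξ‖ ≤ 1 := by
      intro ξ
      rw [norm_smul, norm_inv, Complex.norm_real, Real.norm_eq_abs, abs_of_pos (by positivity),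
        inv_mul_le_iff₀ (by positivity)]
      linarith
    have h3 := h1 _ _ (hn ξ) (hn η)
    rw [← TensorProduct.smul_tmul', TensorProduct.tmul_smul, map_smul, map_smul, smul_smul,
      smul_eq_zero] at h3
    rcases h3 with h3 | h3
    · exfalso
      have h4 : ((1 + ‖ξ‖ : ℝ) : ℂ) ≠ 0 := by
        have : (0 : ℝ) < 1 + ‖ξ‖ := by positivity
        exact_mod_cast this.ne'
      have h5 : ((1 + ‖η‖ : ℝ) : ℂ) ≠ 0 := by
        have : (0 : ℝ) < 1 + ‖η‖ := by positivity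
        exact_mod_cast this.ne'
      exact (mul_ne_zero (inv_ne_zero h4) (inv_ne_zero h5)) h3
    · exact h3
  have hsep : ∀ T : H →L[ℂ] H, (∀ ξ ξ', ⟪ξ', T ξ⟫_ℂ = 0) → T = 0 := by
    intro T hT
    ext ξ
    exact inner_self_eq_zero.1 (hT ξ (T ξ))
  let f : H → H → A →ₗ[ℂ] ℂ := fun ξ ξ' =>
    (innerₛₗ ℂ ξ') ∘ₗ (ContinuousLinearMap.apply ℂ H ξ).toLinearMap ∘ₗ (ρ : A →ₗ[ℂ] (H →L[ℂ] H))
  let g : H → H → B →ₗ[ℂ] ℂ := fun ξ ξ' =>
    (innerₛₗ ℂ ξ') ∘ₗ (ContinuousLinearMap.apply ℂ H ξ).toLinearMap ∘ₗ (σ : B →ₗ[ℂ] (H →L[ℂ] H))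
  refine tensor_sep f g (fun a ha => hρi a (hsep _ ha)) (fun b hb => hσi b (hsep _ hb)) y ?_
  intro ξ ξ' η η'
  have h3 : LinearMap.mul' ℂ ℂ ∘ₗ TensorProduct.map (f ξ ξ') (g η η') =
      vf ρ σ (ξ' ⊗ₜ η') (ξ ⊗ₜ η) := by
    refine TensorProduct.ext' fun a b => ?_
    rw [vf_apply, op_tmul, TensorProduct.inner_tmul]
    rfl
  rw [h3, vf_apply, h2, inner_zero_right]

end inj

end Pool.Agent.H658.MT
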