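import Mathlib

/-! # Measurable selections of compact sets given by Caratheodory inequalities -/

set_option autoImplicit false

open Set Filter Topology

namespace Pool.Agent.H658.MT

/-- Feasibility of a countable system of inequalities `G i x k ≤ 0` in a compact space is a
measurable condition on the parameter. -/
theorem measurableSet_feas {X : Type*} [MeasurableSpace X] {K : Type*} [TopologicalSpace K]
    [CompactSpace K] [TopologicalSpace.SeparableSpace K] [Nonempty K] {ι : Type*} [Countable ι]
    (G : ι → X → K → ℝ) (hGm : ∀ i k, Measurable fun x => G i x k)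
    (hGc : ∀ i x, Continuous (G i x)) :
    MeasurableSet {x | ∃ k, ∀ i, G i x k ≤ 0} := by
  classical
  have key : {x | ∃ k, ∀ i, G i x k ≤ 0} =
      ⋂ F : Finset ι, ⋂ n : ℕ, ⋃ m : ℕ, ⋂ i ∈ F,
        {x | G i x (TopologicalSpace.denseSeq K m) < 1 / ((n : ℝ) + 1)} := by
    ext x
    simp only [mem_ofPred_eq, mem_iInter, mem_iUnion]
    constructor
    · rintro ⟨k, hk⟩ F n
      have hopen : IsOpen (⋂ i ∈ F, {k' | G i x k' < 1 / ((n : ℝ) + 1)}) :=
        isOpen_biInter_finset fun i _ => isOpen_lt (hGc i x) continuous_const
      have hne : (⋂ i ∈ F, {k' | G i x k' < 1 / ((n : ℝ) + 1)}).Nonempty :=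
        ⟨k, by
          simp only [mem_iInter, mem_ofPred_eq]
          intro i _
          exact lt_of_le_of_lt (hk i) (by positivity)⟩
      obtain ⟨m, hm⟩ := (TopologicalSpace.denseRange_denseSeq K).exists_mem_open hopen hne
      refine ⟨m, fun i hi => ?_⟩
      simp only [mem_iInter, mem_ofPred_eq] at hm
      exact hm i hi
    · intro h
      have hfip : (Set.univ ∩ ⋂ p : ι × ℕ, {k | G p.1 x k ≤ 1 / ((p.2 : ℝ) + 1)}).Nonempty := by
        refine isCompact_univ.inter_iInter_nonempty _
          (fun p => isClosed_le (hGc p.1 x) continuous_const) ?_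
        intro F
        obtain ⟨n, hn⟩ : ∃ n : ℕ, ∀ p ∈ F, p.2 ≤ n :=
          ⟨F.sup Prod.snd, fun p hp => Finset.le_sup (f := Prod.snd) hp⟩
        obtain ⟨m, hm⟩ := h (F.image Prod.fst) n
        refine ⟨TopologicalSpace.denseSeq K m, mem_univ _, ?_⟩
        simp only [mem_iInter, mem_ofPred_eq]
        intro p hp
        have h1 := hm p.1 (Finset.mem_image_of_mem _ hp)
        refine h1.le.trans ?_
        have h2 : (p.2 : ℝ) ≤ n := by exact_mod_cast hn p hp
        exact one_div_le_one_div_of_le (by positivity) (by linarith)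
      obtain ⟨k, -, hk⟩ := hfip
      simp only [mem_iInter, mem_ofPred_eq] at hk
      refine ⟨k, fun i => ?_⟩
      exact ge_of_tendsto (tendsto_one_div_add_atTop_nhds_zero_nat (𝕜 := ℝ))
        (Eventually.of_forall fun n => hk (i, n))
  rw [key]
  refine MeasurableSet.iInter fun F => MeasurableSet.iInter fun n => MeasurableSet.iUnion fun m =>
    Finset.measurableSet_biInter F fun i _ => ?_
  exact measurableSet_lt (hGm i _) measurable_const

section selection

variable {X : Type*} [MeasurableSpace X] {K : Type*} [TopologicalSpace K] [CompactSpace K]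
  [TopologicalSpace.MetrizableSpace K] [Nonempty K] [MeasurableSpace K] [BorelSpace K]

/-- prefix cylinder -/
def cyl (l : List Bool) : Set (ℕ → Bool) := {b | ∀ i (h : i < l.length), b i = l[i]}

lemma isClosed_cyl (l : List Bool) : IsClosed (cyl l) := by
  have : cyl l = ⋂ (i : ℕ) (h : i < l.length), {b | b i = l[i]} := by
    ext b; simp [cyl]
  rw [this]
  exact isClosed_iInter fun i => isClosed_iInter fun h =>
    isClosed_eq (continuous_apply i) continuous_const

lemma mem_cyl_append {l : List Bool} {c : Bool} {b : ℕ → Bool} :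
    b ∈ cyl (l ++ [c]) ↔ b ∈ cyl l ∧ b l.length = c := by
  constructor
  · intro h
    refine ⟨fun i hi => ?_, ?_⟩
    · have := h i (by simp; omega)
      rwa [List.getElem_append_left hi] at this
    · have := h l.length (by simp)
      simpa using this
  · rintro ⟨h1, h2⟩ i hi
    simp only [List.length_append, List.length_cons, List.length_nil] at hi
    by_cases h3 : i < l.length
    · rw [List.getElem_append_left h3]; exact h1 i h3
    · have : i = l.length := by omega
      subst this
      simpa using h2

open Classical in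
/-- leftmost branch -/
noncomputable def lft (P : List Bool → Prop) : ℕ → List Bool
  | 0 => []
  | n + 1 => if P (lft P n ++ [false]) then lft P n ++ [false] else lft P n ++ [true]

lemma length_lft (P : List Bool → Prop) (n : ℕ) : (lft P n).length = n := by
  induction n with
  | zero => rfl
  | succ n ih =>
    rw [lft]; split_ifs <;> simp [ih]

theorem exists_selection (S : X → Set K) (hS : ∀ x, IsClosed (S x))
    (hm : ∀ C : Set K, IsClosed C → MeasurableSet {x | (S x ∩ C).Nonempty}) :
    ∃ f : X → K, Measurable f ∧ ∀ x, (S x).Nonempty → f x ∈ S x := by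
  classical
  let _ : MetricSpace K := TopologicalSpace.metrizableSpaceMetric K
  obtain ⟨v, hv, hvs⟩ := exists_nat_bool_continuous_surjective_of_compact K
  let P : X → List Bool → Prop := fun x l => (S x ∩ v '' cyl l).Nonempty
  have hP : ∀ l, MeasurableSet {x | P x l} := fun l =>
    hm _ (((isClosed_cyl l).isCompact.image hv).isClosed)
  have hg : ∀ n l, MeasurableSet {x | lft (P x) n = l} := by
    intro n
    induction n with
    | zero =>
      intro l
      simp only [lft]
      exact MeasurableSet.const _
    | succ n ih =>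
      intro l
      have : {x | lft (P x) (n + 1) = l} =
          ⋃ l' : List Bool, {x | lft (P x) n = l'} ∩
            (({x | P x (l' ++ [false])} ∩ {_x | l' ++ [false] = l}) ∪
              ({x | P x (l' ++ [false])}ᶜ ∩ {_x | l' ++ [true] = l})) := by
        ext x
        simp only [mem_ofPred_eq, mem_iUnion, mem_inter_iff, mem_union, mem_compl_iff]
        constructor
        · intro h
          refine ⟨lft (P x) n, rfl, ?_⟩
          rw [lft] at h
          split_ifs at h with h1
          · exact Or.inl ⟨h1, h⟩
          · exact Or.inr ⟨h1, h⟩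
        · rintro ⟨l', rfl, h | h⟩
          · rw [lft, if_pos h.1]; exact h.2
          · rw [lft, if_neg h.1]; exact h.2
      rw [this]
      refine MeasurableSet.iUnion fun l' => (ih l').inter (MeasurableSet.union ?_ ?_)
      · exact (hP _).inter (MeasurableSet.const _)
      · exact (hP _).compl.inter (MeasurableSet.const _)
  let bb : X → ℕ → Bool := fun x n => (lft (P x) (n + 1)).getD n false
  have hbb : Measurable bb := by
    refine measurable_pi_lambda _ fun n => ?_
    refine measurable_to_countable' fun c => ?_
    have : (fun x => bb x n) ⁻¹' {c} = ⋃ l : List Bool, {x | lft (P x) (n + 1) = l} ∩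
        {_x | l.getD n false = c} := by
      ext x
      simp only [mem_preimage, mem_singleton_iff, mem_iUnion, mem_inter_iff, mem_ofPred_eq]
      constructor
      · intro h; exact ⟨_, rfl, h⟩
      · rintro ⟨l, h1, h2⟩; simp only [bb, h1, h2]
    rw [this]
    exact MeasurableSet.iUnion fun l => (hg _ _).inter (MeasurableSet.const _)
  have hpre : ∀ x n, lft (P x) (n + 1) = lft (P x) n ++ [bb x n] := by
    intro x n
    simp only [bb]
    rw [lft]
    split_ifs with h1
    · rw [List.getD_eq_getElem?_getD, List.getElem?_append_right (by rw [length_lft]),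
        length_lft]; simp
    · rw [List.getD_eq_getElem?_getD, List.getElem?_append_right (by rw [length_lft]),
        length_lft]; simp
  have hcyl : ∀ x n, bb x ∈ cyl (lft (P x) n) := by
    intro x n
    induction n with
    | zero => intro i hi; simp [lft] at hi
    | succ n ih =>
      rw [hpre, mem_cyl_append]
      exact ⟨ih, by rw [length_lft]⟩
  refine ⟨fun x => v (bb x), hv.measurable.comp hbb, fun x hx => ?_⟩
  have hPn : ∀ n, P x (lft (P x) n) := by
    intro n
    induction n with
    | zero =>
      obtain ⟨k, hk⟩ := hx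
      obtain ⟨b, rfl⟩ := hvs k
      exact ⟨v b, hk, b, fun i hi => by simp [lft] at hi, rfl⟩
    | succ n ih =>
      rw [lft]
      split_ifs with h1
      · exact h1
      · obtain ⟨k, hk, b, hb, rfl⟩ := ih
        have hb2 : b n = true := by
          by_contra hne
          apply h1
          refine ⟨v b, hk, b, mem_cyl_append.2 ⟨hb, ?_⟩, rfl⟩
          rw [length_lft]
          simpa using hne
        exact ⟨v b, hk, b, mem_cyl_append.2 ⟨hb, by rw [length_lft]; exact hb2⟩, rfl⟩
  choose k hk b hb hbk using hPn
  have hlim : Tendsto b atTop (𝓝 (bb x)) := by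
    rw [tendsto_pi_nhds]
    intro i
    refine tendsto_const_nhds.congr' ?_
    filter_upwards [eventually_gt_atTop i] with n hn
    have h1 := hb n i (by rw [length_lft]; exact hn)
    have h2 := hcyl x n i (by rw [length_lft]; exact hn)
    rw [h1, h2]
  have hlim2 : Tendsto (fun n => v (b n)) atTop (𝓝 (v (bb x))) := (hv.tendsto _).comp hlim
  refine (hS x).mem_of_tendsto hlim2 (Eventually.of_forall fun n => ?_)
  rw [hbk]
  exact hk n

/-- Castaing representation. -/
theorem exists_castaing (S : X → Set K) (hS : ∀ x, IsClosed (S x))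
    (hm : ∀ C : Set K, IsClosed C → MeasurableSet {x | (S x ∩ C).Nonempty}) :
    ∃ f : ℕ → X → K, (∀ n, Measurable (f n)) ∧ ∀ x, (S x).Nonempty →
      (∀ n, f n x ∈ S x) ∧ S x ⊆ closure (range fun n => f n x) := by
  classical
  let _ : MetricSpace K := TopologicalSpace.metrizableSpaceMetric K
  have h1 : ∀ C : Set K, IsClosed C → ∃ f : X → K, Measurable f ∧ ∀ x, (S x).Nonempty →
      f x ∈ S x ∧ ((S x ∩ C).Nonempty → f x ∈ C) := by
    intro C hC
    obtain ⟨f, hf, hf2⟩ := exists_selection
      (fun x => if (S x ∩ C).Nonempty then S x ∩ C else S x)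
      (fun x => by
        by_cases h : (S x ∩ C).Nonempty
        · simp only [h, if_true]; exact (hS x).inter hC
        · simp only [h, if_false]; exact hS x)
      (fun C' hC' => by
        have : {x | ((if (S x ∩ C).Nonempty then S x ∩ C else S x) ∩ C').Nonempty} =
            ({x | (S x ∩ C).Nonempty} ∩ {x | (S x ∩ (C ∩ C')).Nonempty}) ∪
              ({x | (S x ∩ C).Nonempty}ᶜ ∩ {x | (S x ∩ C').Nonempty}) := by
          ext x
          by_cases h : (S x ∩ C).Nonempty
          · simp [h, inter_assoc]
          · simp [h]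
        rw [this]
        exact ((hm C hC).inter (hm _ (hC.inter hC'))).union ((hm C hC).compl.inter (hm C' hC')))
    refine ⟨f, hf, fun x hx => ?_⟩
    have h2 := hf2 x
    by_cases h : (S x ∩ C).Nonempty
    · simp only [if_pos h] at h2
      have h3 := h2 h
      exact ⟨h3.1, fun _ => h3.2⟩
    · simp only [if_neg h] at h2
      exact ⟨h2 hx, fun h' => absurd h' h⟩
  let D : ℕ × ℕ → Set K := fun p =>
    Metric.closedBall (TopologicalSpace.denseSeq K p.1) (1 / ((p.2 : ℝ) + 1))
  choose F hF hF2 using fun p : ℕ × ℕ => h1 (D p) Metric.isClosed_closedBall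
  refine ⟨fun n => F (Nat.unpair n), fun n => hF _, fun x hx => ⟨fun n => (hF2 _ x hx).1, ?_⟩⟩
  intro k hk
  rw [Metric.mem_closure_iff]
  intro ε hε
  obtain ⟨m, hm2⟩ := exists_nat_one_div_lt (half_pos hε)
  obtain ⟨n, hn⟩ := (TopologicalSpace.denseRange_denseSeq K).exists_dist_lt k
    (show (0 : ℝ) < 1 / ((m : ℝ) + 1) by positivity)
  refine ⟨F (n, m) x, ⟨Nat.pair n m, by simp⟩, ?_⟩
  have h2 : k ∈ D (n, m) := hn.le
  have h3 : F (n, m) x ∈ D (n, m) := (hF2 (n, m) x hx).2 ⟨k, hk, h2⟩
  calc dist k (F (n, m) x) ≤ dist k (TopologicalSpace.denseSeq K n) +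
        dist (F (n, m) x) (TopologicalSpace.denseSeq K n) := dist_triangle_right _ _ _
    _ ≤ 1 / ((m : ℝ) + 1) + 1 / ((m : ℝ) + 1) := add_le_add hn.le h3
    _ < ε := by linarith

end selection

end Pool.Agent.H658.MT
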