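import Pool.Agent.H658.MT.Gns
import Pool.Agent.H658.MT.Compl

/-! # States which attain the norm -/

set_option autoImplicit false
set_option linter.unusedSectionVars false

open Set Filter Topology
open scoped InnerProductSpace ComplexConjugate

namespace Pool.Agent.H658.MT

section states

variable {U : Type*} [CStarAlgebra U]

attribute [local instance] CStarAlgebra.spectralOrder CStarAlgebra.spectralOrderedRing

lemma norm_one_add [Nontrivial U] {h : U} (hh : 0 ≤ h) : ‖1 + h‖ = 1 + ‖h‖ := by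
  refine le_antisymm ((norm_add_le _ _).trans (by rw [CStarRing.norm_one])) ?_
  have h1 : (0 : U) ≤ 1 := zero_le_one
  have h2 : (0 : U) ≤ 1 + h := add_nonneg h1 hh
  have h3 : 1 ≤ ‖1 + h‖ := by
    have := CStarAlgebra.norm_le_norm_of_nonneg_of_le h1 (le_add_of_nonneg_right hh : (1:U) ≤ 1 + h)
    rwa [CStarRing.norm_one] at this
  have h4 : 1 + h ≤ algebraMap ℝ U ‖1 + h‖ :=
    (CStarAlgebra.norm_le_iff_le_algebraMap (1 + h) (norm_nonneg _) h2).1 le_rfl
  have h5 : h ≤ algebraMap ℝ U (‖1 + h‖ - 1) := by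
    rw [map_sub, map_one]
    exact le_sub_iff_add_le'.2 h4
  have h6 : ‖h‖ ≤ ‖1 + h‖ - 1 :=
    (CStarAlgebra.norm_le_iff_le_algebraMap h (by linarith) hh).2 h5
  linarith

theorem exists_state (u : U) : ∃ f : U →ₗ[ℂ] ℂ, (∀ y, ‖f y‖ ≤ ‖y‖) ∧
    (∀ y, (f (star y * y)).im = 0) ∧ (∀ y, 0 ≤ (f (star y * y)).re) ∧
    (∀ y, ‖f y‖ ^ 2 ≤ (f (star y * y)).re) ∧ (f (star u * u)).re = ‖u‖ ^ 2 := by
  rcases subsingleton_or_nontrivial U with hU | hU
  · refine ⟨0, by simp, by simp, by simp, by simp, ?_⟩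
    have : u = 0 := Subsingleton.elim _ _
    simp [this]
  set h : U := star u * u with hh
  have hpos : 0 ≤ h := star_mul_self_nonneg u
  obtain ⟨g, hg1, hg2⟩ := exists_dual_vector'' ℂ (1 + h)
  have hgn : ∀ y, ‖g y‖ ≤ ‖y‖ := fun y => g.le_of_opNorm_le_of_le hg1 le_rfl |>.trans (by simp)
  rw [norm_one_add hpos, map_add] at hg2
  have e1 := (Complex.abs_re_le_norm (g 1)).trans (hgn 1)
  rw [CStarRing.norm_one] at e1
  have e2 := (Complex.abs_re_le_norm (g h)).trans (hgn h)
  have e3 := congrArg Complex.re hg2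
  simp only [Complex.add_re, Complex.ofReal_re, RCLike.ofReal_add, RCLike.ofReal_one,
    Complex.one_re, Complex.coe_algebraMap] at e3
  have e4 : (g 1).re = 1 := by
    have := abs_le.1 e1; have := abs_le.1 e2; linarith [this.1, this.2]
  have e5 : (g h).re = ‖h‖ := by
    have := abs_le.1 e1; have := abs_le.1 e2; linarith [this.1, this.2]
  have e6 : (g 1).im = 0 := by
    have h1 := hgn 1
    rw [CStarRing.norm_one] at h1
    have h2 := Complex.sq_norm (g 1)
    rw [Complex.normSq_apply, e4] at h2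
    have h3 : ‖g 1‖ ^ 2 ≤ 1 := by
      have := norm_nonneg (g 1); nlinarith
    nlinarith [sq_nonneg (g 1).im]
  have e7 : g 1 = 1 := Complex.ext (by simpa using e4) (by simpa using e6)
  have hsa : ∀ a : U, IsSelfAdjoint a → (g a).im = 0 := by
    intro a ha
    have key : ∀ t : ℝ, (g a).im * (2 * t) ≤ ‖a‖ ^ 2 := by
      intro t
      set w : U := a + (Complex.I * t) • (1 : U) with hw
      have k1 : ‖w‖ ^ 2 ≤ ‖a‖ ^ 2 + t ^ 2 := by
        have k2 : star w * w = a * a + ((t ^ 2 : ℝ) : ℂ) • (1 : U) := by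
          rw [hw, star_add, star_smul, star_one, ha.star_eq]
          simp only [star_mul', Complex.star_def, Complex.conj_I, Complex.conj_ofReal]
          simp only [add_mul, mul_add, smul_mul_assoc, mul_smul_comm, one_mul, mul_one,
            neg_mul, neg_smul, smul_add, smul_neg, smul_smul]
          have k3 : (Complex.I * (t:ℂ)) * (Complex.I * t) = -((t ^ 2 : ℝ) : ℂ) := by
            push_cast
            have := Complex.I_mul_I
            linear_combination (t:ℂ)^2 * this
          rw [k3]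
          module
        rw [sq, ← CStarRing.norm_star_mul_self, k2]
        refine (norm_add_le _ _).trans ?_
        refine add_le_add ((norm_mul_le _ _).trans (by rw [sq])) ?_
        rw [norm_smul, CStarRing.norm_one, mul_one, Complex.norm_real, Real.norm_eq_abs,
          abs_of_nonneg (sq_nonneg t)]
      have k4 : g w = g a + Complex.I * t := by
        rw [hw, map_add, map_smul, e7, smul_eq_mul, mul_one]
      have k5 : ‖g w‖ ^ 2 ≤ ‖w‖ ^ 2 := by
        have := hgn w; have := norm_nonneg (g w); gcongr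
      have k6 := Complex.sq_norm (g w)
      rw [Complex.normSq_apply, k4] at k6
      simp only [Complex.add_re, Complex.add_im, Complex.mul_re, Complex.mul_im, Complex.I_re,
        Complex.I_im, Complex.ofReal_re, Complex.ofReal_im] at k6
      rw [k4] at k5
      nlinarith [sq_nonneg (g a).re, sq_nonneg (g a).im]
    by_contra hne
    have h1 := key ((‖a‖ ^ 2 + 1) / (2 * (g a).im))
    have h2 : (g a).im * (2 * ((‖a‖ ^ 2 + 1) / (2 * (g a).im))) = ‖a‖ ^ 2 + 1 := by
      field_simp
    rw [h2] at h1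
    linarith
  have him : ∀ y, (g (star y * y)).im = 0 := fun y => hsa _ (IsSelfAdjoint.star_mul_self y)
  have hre : ∀ y, 0 ≤ (g (star y * y)).re := by
    intro y
    set a := star y * y with ha
    have ha0 : 0 ≤ a := star_mul_self_nonneg y
    have h1 : a ≤ algebraMap ℝ U ‖a‖ := IsSelfAdjoint.le_algebraMap_norm_self (.of_nonneg ha0)
    have h2 : ‖algebraMap ℝ U ‖a‖ - a‖ ≤ ‖a‖ := by
      refine (CStarAlgebra.norm_le_iff_le_algebraMap _ (norm_nonneg a) (sub_nonneg.2 h1)).2 ?_
      exact sub_le_self _ ha0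
    have h3 := hgn (algebraMap ℝ U ‖a‖ - a)
    have h4 : g (algebraMap ℝ U ‖a‖) = (‖a‖ : ℂ) := by
      rw [Algebra.algebraMap_eq_smul_one, ← Complex.coe_smul, map_smul, e7, smul_eq_mul, mul_one]
    rw [map_sub, h4] at h3
    have h5 := (Complex.re_le_norm _).trans (h3.trans h2)
    rw [Complex.sub_re, Complex.ofReal_re] at h5
    linarith
  have hP : PosF g.toLinearMap := ⟨him, hre⟩
  refine ⟨g.toLinearMap, hgn, him, hre, ?_, ?_⟩
  · intro y
    have h1 := norm_inner_le_norm (𝕜 := ℂ) (toG hP 1) (toG hP y)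
    rw [innerG] at h1
    simp only [LinearEquiv.symm_apply_apply, star_one, one_mul] at h1
    have h2 := normG_sq hP (toG hP 1)
    have h3 := normG_sq hP (toG hP y)
    simp only [LinearEquiv.symm_apply_apply, star_one, one_mul] at h2 h3
    change ‖g.toLinearMap y‖ ^ 2 ≤ (g.toLinearMap (star y * y)).re
    rw [← h3]
    have h4 : ‖toG hP 1‖ ^ 2 = 1 := by
      rw [h2]; exact e4
    have h5 : ‖g.toLinearMap y‖ ^ 2 ≤ (‖toG hP 1‖ * ‖toG hP y‖) ^ 2 := by gcongr
    rw [mul_pow, h4, one_mul] at h5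
    exact h5
  · change (g h).re = _
    rw [e5, hh, CStarRing.norm_star_mul_self, sq]

end states

end Pool.Agent.H658.MT
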