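import Pool.Agent.H658.MT.Wot

/-! # Terms: rational noncommutative *-polynomials -/

set_option autoImplicit false
set_option linter.unusedSectionVars false

open Set Filter Topology
open scoped InnerProductSpace

namespace Pool.Agent.H658.MT

/-- rational noncommutative *-polynomials without constant term, as terms -/
inductive Tm
  | var : ℕ → Tm
  | smul : ℚ → ℚ → Tm → Tm
  | add : Tm → Tm → Tm
  | mul : Tm → Tm → Tm
  | star : Tm → Tm
deriving Countable

instance : Nonempty Tm := ⟨Tm.var 0⟩

/-- the complex number `p + q i` -/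
noncomputable def qi (p q : ℚ) : ℂ := (p : ℂ) + (q : ℂ) * Complex.I

lemma denseRange_qi : DenseRange (fun u : ℚ × ℚ => qi u.1 u.2) := by
  have h1 : DenseRange (Prod.map ((↑) : ℚ → ℝ) ((↑) : ℚ → ℝ)) :=
    Rat.denseRange_cast.prodMap Rat.denseRange_cast
  have h2 : DenseRange (fun z : ℝ × ℝ => (z.1 : ℂ) + z.2 * Complex.I) := by
    have : Function.Surjective (fun z : ℝ × ℝ => (z.1 : ℂ) + z.2 * Complex.I) := fun z =>
      ⟨(z.re, z.im), Complex.re_add_im z⟩
    exact this.denseRange
  have h3 := h2.comp h1 (by fun_prop)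
  convert h3 using 2 with u
  simp [qi]

section
variable {A : Type*} [NonUnitalRing A] [Module ℂ A] [Star A]

/-- evaluation of a term -/
noncomputable def eval (γ : ℕ → A) : Tm → A
  | .var n => γ n
  | .smul p q t => qi p q • eval γ t
  | .add s t => eval γ s + eval γ t
  | .mul s t => eval γ s * eval γ t
  | .star t => Star.star (eval γ t)

end

/-- A dense family indexed by the terms, compatible with the operations. -/
structure TRep {A : Type*} [NonUnitalCStarAlgebra A] (a : Tm → A) : Prop where
  smul : ∀ p q t, a (.smul p q t) = qi p q • a t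
  add : ∀ s t, a (.add s t) = a s + a t
  mul : ∀ s t, a (.mul s t) = a s * a t
  star : ∀ t, a (.star t) = Star.star (a t)
  dense : DenseRange a

section
variable {B : Type*} [CStarAlgebra B]

/-- The C*-algebra generated by a sequence: the closure of the (not necessarily unital)
*-subalgebra generated by the entries. -/
noncomputable def CStar (γ : ℕ → B) : NonUnitalStarSubalgebra ℂ B :=
  (NonUnitalStarAlgebra.adjoin ℂ (Set.range γ)).topologicalClosure

instance (γ : ℕ → B) : IsClosed ((CStar γ : NonUnitalStarSubalgebra ℂ B) : Set B) :=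
  NonUnitalStarSubalgebra.isClosed_topologicalClosure _

lemma isClosed_CStar (γ : ℕ → B) : IsClosed ((CStar γ : NonUnitalStarSubalgebra ℂ B) : Set B) :=
  NonUnitalStarSubalgebra.isClosed_topologicalClosure _

noncomputable instance (γ : ℕ → B) : NonUnitalCStarAlgebra (CStar γ) :=
  NonUnitalStarSubalgebra.nonUnitalCStarAlgebra (h_closed := isClosed_CStar γ) (CStar γ)

lemma gen_mem (γ : ℕ → B) (n : ℕ) : γ n ∈ CStar γ :=
  NonUnitalStarSubalgebra.le_topologicalClosure _
    (NonUnitalStarAlgebra.subset_adjoin ℂ _ ⟨n, rfl⟩)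

lemma eval_mem (γ : ℕ → B) (t : Tm) : eval γ t ∈ CStar γ := by
  induction t with
  | var n => exact gen_mem γ n
  | smul p q t ih => exact (CStar γ).smul_mem _ ih
  | add s t ih1 ih2 => exact add_mem ih1 ih2
  | mul s t ih1 ih2 => exact mul_mem ih1 ih2
  | star t ih => exact star_mem ih

/-- the closure of the set of values of the terms is a *-subalgebra -/
noncomputable def valSub (γ : ℕ → B) : NonUnitalStarSubalgebra ℂ B where
  carrier := closure (range (eval γ))
  add_mem' := by
    intro x y hx hy
    refine map_mem_closure₂ continuous_add hx hy ?_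
    rintro _ ⟨s, rfl⟩ _ ⟨t, rfl⟩
    exact ⟨.add s t, rfl⟩
  zero_mem' := subset_closure ⟨.smul 0 0 (.var 0), by simp [eval, qi]⟩
  mul_mem' := by
    intro x y hx hy
    refine map_mem_closure₂ continuous_mul hx hy ?_
    rintro _ ⟨s, rfl⟩ _ ⟨t, rfl⟩
    exact ⟨.mul s t, rfl⟩
  smul_mem' := by
    intro c x hx
    have hc : c ∈ closure (range fun u : ℚ × ℚ => qi u.1 u.2) := denseRange_qi c
    refine map_mem_closure₂ (f := fun (c : ℂ) (x : B) => c • x) continuous_smul hc hx ?_
    rintro _ ⟨u, rfl⟩ _ ⟨t, rfl⟩
    exact ⟨.smul u.1 u.2 t, rfl⟩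
  star_mem' := by
    intro x hx
    refine map_mem_closure continuous_star hx ?_
    rintro _ ⟨t, rfl⟩
    exact ⟨.star t, rfl⟩

lemma CStar_le_valSub (γ : ℕ → B) : CStar γ ≤ valSub γ := by
  refine NonUnitalStarSubalgebra.topologicalClosure_minimal _ ?_ isClosed_closure
  refine NonUnitalStarAlgebra.adjoin_le ?_
  rintro _ ⟨n, rfl⟩
  exact subset_closure ⟨.var n, rfl⟩

/-- the values of the terms in `C*(γ)` -/
noncomputable def cev (γ : ℕ → B) (t : Tm) : CStar γ := ⟨eval γ t, eval_mem γ t⟩

theorem trep_cev (γ : ℕ → B) : TRep (cev γ) where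
  smul p q t := rfl
  add s t := rfl
  mul s t := rfl
  star t := rfl
  dense := by
    intro x
    rw [Topology.IsInducing.subtypeVal.closure_eq_preimage_closure_image]
    have h1 : (x : B) ∈ closure (range (eval γ)) := CStar_le_valSub γ x.2
    have h2 : range (eval γ) = Subtype.val '' (range (cev γ)) := by
      rw [← range_comp]; rfl
    rw [h2] at h1
    exact h1

end

section
variable {H : Type*} [NormedAddCommGroup H] [InnerProductSpace ℂ H] [CompleteSpace H]
  [TopologicalSpace.SeparableSpace H] {X : Type*} [MeasurableSpace X]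

theorem CM.eval (b : HilbertBasis ℕ ℂ H) {γ : X → ℕ → (H →L[ℂ] H)} (h : ∀ n, CM fun x => γ x n)
    (t : Tm) : CM fun x => eval (γ x) t := by
  induction t with
  | var n => exact h n
  | smul p q t ih => exact ih.smul _
  | add s t ih1 ih2 => exact ih1.add ih2
  | mul s t ih1 ih2 => exact CM.mul b ih1 ih2
  | star t ih => exact ih.adj

end

end Pool.Agent.H658.MT
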