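import Pool.Agent.H658.MT.Asm

/-! # Uniqueness of the maximal tensor product; a Hilbert basis indexed by `ℕ` -/

set_option autoImplicit false
set_option linter.unusedSectionVars false

open Set Filter Topology TensorProduct
open scoped InnerProductSpace ComplexConjugate

namespace Pool.Agent.H658.MT

universe u v

section uniq

variable {A B D D' : Type u} [NonUnitalCStarAlgebra A] [NonUnitalCStarAlgebra B]
  [NonUnitalCStarAlgebra D] [NonUnitalCStarAlgebra D']

lemma exists_extend (j : A ⊗[ℂ] B →⋆ₙₐ[ℂ] D) (j' : A ⊗[ℂ] B →⋆ₙₐ[ℂ] D') (hd : DenseRange j)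
    (hn : ∀ y, ‖j y‖ = ‖j' y‖) (hi : ∀ y, j y = 0 → y = 0) :
    ∃ θ : D → D', Continuous θ ∧ ∀ y, θ (j y) = j' y := by
  have hinj : Function.Injective (j : A ⊗[ℂ] B →ₗ[ℂ] D) := by
    rw [injective_iff_map_eq_zero]
    exact hi
  let E := LinearEquiv.ofInjective (j : A ⊗[ℂ] B →ₗ[ℂ] D) hinj
  let R := LinearMap.range (j : A ⊗[ℂ] B →ₗ[ℂ] D)
  have hE : ∀ r : R, j (E.symm r) = r := by
    intro r
    have := congrArg Subtype.val (E.apply_symm_apply r)
    exact this
  let f : R →ₗ[ℂ] D' := (j' : A ⊗[ℂ] B →ₗ[ℂ] D') ∘ₗ E.symm.toLinearMap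
  have hf : ∀ r : R, ‖f r‖ ≤ 1 * ‖r‖ := by
    intro r
    change ‖j' (E.symm r)‖ ≤ _
    rw [← hn, hE, one_mul]
    rfl
  let g : R →L[ℂ] D' := f.mkContinuous 1 hf
  have hdr : DenseRange (Submodule.subtypeL R) := by
    change Dense (range (Subtype.val : R → D))
    rw [Subtype.range_coe]
    exact hd
  have hui : IsUniformInducing (Submodule.subtypeL R) := isUniformEmbedding_subtype_val.isUniformInducing
  refine ⟨g.extend (Submodule.subtypeL R), ContinuousLinearMap.continuous _, fun y => ?_⟩
  have h1 := ContinuousLinearMap.extend_eq g hdr hui (E y)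
  have h2 : (Submodule.subtypeL R) (E y) = j y := rfl
  rw [h2] at h1
  rw [h1]
  change j' (E.symm (E y)) = j' y
  rw [E.symm_apply_apply]

/-- the maximal tensor product is unique up to *-isomorphism -/
theorem IsMaxTensor.unique (h : IsMaxTensor A B D) (h' : IsMaxTensor A B D') :
    Nonempty (D ≃⋆ₐ[ℂ] D') := by
  obtain ⟨j, hd, hn, hm⟩ := h
  obtain ⟨j', hd', hn', hm'⟩ := h'
  have e : ∀ y, ‖j y‖ = ‖j' y‖ := fun y => le_antisymm (hm' _ hn y) (hm _ hn' y)
  obtain ⟨θ, hθ, hθj⟩ := exists_extend j j' hd e fun y hy => hn.eq_zero y (by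
    simp only [hy, norm_zero])
  obtain ⟨θ', hθ', hθj'⟩ := exists_extend j' j hd' (fun y => (e y).symm) fun y hy =>
    hn'.eq_zero y (by simp only [hy, norm_zero])
  have h1 : ∀ x, θ' (θ x) = x := by
    intro x
    refine hd.induction_on (p := fun x => θ' (θ x) = x) x (isClosed_eq (by fun_prop) (by fun_prop))
      fun y => ?_
    rw [hθj, hθj']
  have h2 : ∀ x, θ (θ' x) = x := by
    intro x
    refine hd'.induction_on (p := fun x => θ (θ' x) = x) x (isClosed_eq (by fun_prop) (by fun_prop))
      fun y => ?_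
    rw [hθj', hθj]
  have hadd : ∀ x y, θ (x + y) = θ x + θ y := by
    intro x y
    refine hd.induction_on₂ (p := fun x y => θ (x + y) = θ x + θ y)
      (isClosed_eq (by fun_prop) (by fun_prop)) (fun a b => ?_) x y
    rw [← map_add, hθj, hθj, hθj, map_add]
  have hmul : ∀ x y, θ (x * y) = θ x * θ y := by
    intro x y
    refine hd.induction_on₂ (p := fun x y => θ (x * y) = θ x * θ y)
      (isClosed_eq (by fun_prop) (by fun_prop)) (fun a b => ?_) x y
    rw [← map_mul, hθj, hθj, hθj, map_mul]
  have hstar : ∀ x, θ (star x) = star (θ x) := by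
    intro x
    refine hd.induction_on (p := fun x => θ (star x) = star (θ x)) x
      (isClosed_eq (by fun_prop) (by fun_prop)) fun y => ?_
    rw [← map_star, hθj, hθj, map_star]
  have hsmul : ∀ (c : ℂ) x, θ (c • x) = c • θ x := by
    intro c x
    refine hd.induction_on (p := fun x => θ (c • x) = c • θ x) x
      (isClosed_eq (by fun_prop) (by fun_prop)) fun y => ?_
    rw [← map_smul, hθj, hθj, map_smul]
  exact ⟨{ toFun := θ
           invFun := θ'
           left_inv := h1
           right_inv := h2
           map_mul' := hmul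
           map_add' := hadd
           map_star' := hstar
           map_smul' := hsmul }⟩

end uniq

section basis

variable {H : Type v} [NormedAddCommGroup H] [InnerProductSpace ℂ H]

lemma countable_of_orthonormal [TopologicalSpace.SeparableSpace H] {ι : Type u} {v : ι → H}
    (hv : Orthonormal ℂ v) : Countable ι := by
  have h : (Set.univ : Set ι).PairwiseDisjoint (fun i => Metric.ball (v i) (1 / 2)) := by
    intro i _ j _ hij
    rw [Function.onFun, Set.disjoint_left]
    intro x hx hy
    rw [Metric.mem_ball] at hx hy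
    have h1 : dist (v i) (v j) < 1 := by
      have := dist_triangle_left (v i) (v j) x
      linarith
    have h2 : ‖v i - v j‖ ^ 2 = 2 := by
      rw [norm_sub_sq (𝕜 := ℂ), hv.1 i, hv.1 j, hv.2 hij]
      norm_num
    rw [dist_eq_norm] at h1
    nlinarith [norm_nonneg (v i - v j)]
  have h3 := h.countable_of_isOpen (fun i _ => Metric.isOpen_ball)
    (fun i _ => ⟨v i, Metric.mem_ball_self (by norm_num)⟩)
  exact Set.countable_univ_iff.1 h3

lemma finite_dim_of_basis {ι : Type u} [Finite ι] (b : HilbertBasis ι ℂ H) :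
    FiniteDimensional ℂ H := by
  have h1 : (Submodule.span ℂ (Set.range b)).FG := Submodule.fg_span (Set.finite_range b)
  have h2 : FiniteDimensional ℂ (Submodule.span ℂ (Set.range b)) := Module.Finite.of_fg h1
  have h3 : IsClosed ((Submodule.span ℂ (Set.range b) : Submodule ℂ H) : Set H) :=
    Submodule.closed_of_finiteDimensional _
  have h4 := b.dense_span
  rw [h3.submodule_topologicalClosure_eq] at h4
  rw [h4] at h1
  exact ⟨h1⟩

/-- a separable infinite dimensional Hilbert space has a basis indexed by `ℕ` -/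
theorem exists_basis [CompleteSpace H] [TopologicalSpace.SeparableSpace H]
    (hH : ¬ FiniteDimensional ℂ H) : Nonempty (HilbertBasis ℕ ℂ H) := by
  obtain ⟨w, b, -⟩ := exists_hilbertBasis ℂ H
  have hc : Countable w := countable_of_orthonormal b.orthonormal
  have hi : Infinite w := by
    by_contra h
    rw [not_infinite_iff_finite] at h
    exact hH (finite_dim_of_basis b)
  obtain ⟨e⟩ : Nonempty (ℕ ≃ w) := nonempty_equiv_of_countable
  have h1 : Orthonormal ℂ (b ∘ e) := b.orthonormal.comp _ e.injective
  refine ⟨HilbertBasis.mk h1 ?_⟩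
  rw [Set.range_comp, e.surjective.range_eq, Set.image_univ, b.dense_span]

end basis

end Pool.Agent.H658.MT
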