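import Pool.Agent.H658.MT.Bound
import Pool.Agent.H658.MT.Family

/-! # The universal positive functional and its GNS representation -/

set_option autoImplicit false
set_option linter.unusedSectionVars false

open Set Filter Topology TensorProduct
open scoped InnerProductSpace ComplexConjugate

namespace Pool.Agent.H658.MT

universe u v

section fixed

variable {A B : Type u} [NonUnitalCStarAlgebra A] [NonUnitalCStarAlgebra B]

lemma cont_tmul {E : Type*} [NormedAddCommGroup E] [NormedSpace ℂ E] (L : A ⊗[ℂ] B →ₗ[ℂ] E)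
    (C : ℝ) (hL : ∀ x y, ‖L (x ⊗ₜ y)‖ ≤ C * ‖x‖ * ‖y‖) : Continuous fun z : A × B => L (z.1 ⊗ₜ z.2) := by
  let M := LinearMap.mkContinuous₂ ((TensorProduct.mk ℂ A B).compr₂ L) C hL
  have h1 : ∀ z : A × B, L (z.1 ⊗ₜ z.2) = M z.1 z.2 := fun z => rfl
  simp only [h1]
  fun_prop

lemma Good.norm_sum_le {F : A ⊗[ℂ] B →ₗ[ℂ] ℂ} (hF : Good F) {n : ℕ} (x : Fin n → A)
    (y : Fin n → B) : ‖F (∑ i, x i ⊗ₜ y i)‖ ≤ ∑ i, ‖x i‖ * ‖y i‖ := by
  rw [map_sum]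
  exact (_root_.norm_sum_le _ _).trans (Finset.sum_le_sum fun i _ => hF.bound _ _)

lemma exists_unif (y : A ⊗[ℂ] B) : ∃ C : ℝ, ∀ F : A ⊗[ℂ] B →ₗ[ℂ] ℂ, Good F → ‖F y‖ ≤ C := by
  obtain ⟨n, x, w, rfl⟩ := TensorProduct.exists_sum_tmul_eq y
  exact ⟨_, fun F hF => hF.norm_sum_le x w⟩

variable (F : ℕ → (A ⊗[ℂ] B →ₗ[ℂ] ℂ)) (hF : ∀ n, Good (F n))

/-- the weights -/
noncomputable def wt (n : ℕ) : ℝ := (1 / 2 : ℝ) ^ (n + 1)

lemma wt_pos (n : ℕ) : 0 < wt n := by unfold wt; positivity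

lemma wt_sum : HasSum wt 1 := by
  unfold wt
  have h := hasSum_geometric_two' 1
  convert h using 2 with n
  rw [pow_succ]; simp; ring

lemma summable_F (hF : ∀ n, Good (F n)) (y : A ⊗[ℂ] B) :
    Summable fun n => (wt n : ℂ) * F n y := by
  obtain ⟨C, hC⟩ := exists_unif y
  refine (wt_sum.summable.mul_right C).of_norm_bounded fun n => ?_
  rw [norm_mul, Complex.norm_real, Real.norm_eq_abs, abs_of_pos (wt_pos n)]
  exact mul_le_mul_of_nonneg_left (hC (F n) (hF n)) (wt_pos n).le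

/-- the universal functional -/
noncomputable def PhiF (hF : ∀ n, Good (F n)) : A ⊗[ℂ] B →ₗ[ℂ] ℂ where
  toFun y := ∑' n, (wt n : ℂ) * F n y
  map_add' y z := by
    simp only [map_add, mul_add]
    exact (summable_F F hF y).tsum_add (summable_F F hF z)
  map_smul' c y := by
    simp only [map_smul, smul_eq_mul, RingHom.id_apply]
    rw [← tsum_mul_left]
    refine tsum_congr fun n => by ring

lemma PhiF_hasSum (y : A ⊗[ℂ] B) : HasSum (fun n => (wt n : ℂ) * F n y) (PhiF F hF y) :=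
  (summable_F F hF y).hasSum

lemma PhiF_hasSum_re (y : A ⊗[ℂ] B) : HasSum (fun n => wt n * (F n y).re) (PhiF F hF y).re := by
  have h := Complex.hasSum_re (PhiF_hasSum F hF y)
  simpa only [Complex.re_ofReal_mul] using h

lemma PhiF_hasSum_im (y : A ⊗[ℂ] B) : HasSum (fun n => wt n * (F n y).im) (PhiF F hF y).im := by
  have h := Complex.hasSum_im (PhiF_hasSum F hF y)
  simpa only [Complex.im_ofReal_mul] using h

lemma PhiF_posF : PosF (PhiF F hF) where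
  im z := by
    have h := PhiF_hasSum_im F hF (star z * z)
    simp only [(hF _).im z, mul_zero] at h
    exact h.unique hasSum_zero
  pos z := (PhiF_hasSum_re F hF (star z * z)).nonneg fun n => mul_nonneg (wt_pos n).le ((hF n).pos z)

lemma PhiF_bound (x : A) (y : B) : ‖PhiF F hF (x ⊗ₜ y)‖ ≤ ‖x‖ * ‖y‖ := by
  have h := wt_sum.mul_right (‖x‖ * ‖y‖)
  rw [one_mul] at h
  refine (PhiF_hasSum F hF (x ⊗ₜ y)).norm_le_of_bounded h fun n => ?_
  rw [norm_mul, Complex.norm_real, Real.norm_eq_abs, abs_of_pos (wt_pos n)]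
  exact mul_le_mul_of_nonneg_left ((hF n).bound _ _) (wt_pos n).le

lemma PhiF_dom (n : ℕ) (z : A ⊗[ℂ] B) :
    (F n (star z * z)).re ≤ (wt n)⁻¹ * (PhiF F hF (star z * z)).re := by
  have h := le_hasSum (PhiF_hasSum_re F hF (star z * z)) n fun j _ =>
    mul_nonneg (wt_pos j).le ((hF j).pos z)
  rw [inv_mul_eq_div, le_div_iff₀' (wt_pos n)]
  exact h

/-- the GNS data of the universal functional -/
structure GnsData (Φ : A ⊗[ℂ] B →ₗ[ℂ] ℂ) {K : Type u} [NormedAddCommGroup K]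
    [InnerProductSpace ℂ K] [CompleteSpace K] (η : A ⊗[ℂ] B →ₗ[ℂ] K)
    (π : A ⊗[ℂ] B →⋆ₙₐ[ℂ] (K →L[ℂ] K)) : Prop where
  inner : ∀ y z, ⟪η y, η z⟫_ℂ = Φ (star y * z)
  act : ∀ y z, π y (η z) = η (y * z)
  dense : DenseRange η
  norm_le : ∀ a b, ‖π (a ⊗ₜ b)‖ ≤ ‖a‖ * ‖b‖

lemma GnsData.norm_sq {Φ : A ⊗[ℂ] B →ₗ[ℂ] ℂ} {K : Type u} [NormedAddCommGroup K]
    [InnerProductSpace ℂ K] [CompleteSpace K] {η : A ⊗[ℂ] B →ₗ[ℂ] K}
    {π : A ⊗[ℂ] B →⋆ₙₐ[ℂ] (K →L[ℂ] K)} (h : GnsData Φ η π) (y : A ⊗[ℂ] B) :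
    ‖η y‖ ^ 2 = (Φ (star y * y)).re := by
  rw [← h.inner, ← @inner_self_eq_norm_sq ℂ]; rfl

lemma GnsData.dom {Φ : A ⊗[ℂ] B →ₗ[ℂ] ℂ} {K : Type u} [NormedAddCommGroup K]
    [InnerProductSpace ℂ K] [CompleteSpace K] {η : A ⊗[ℂ] B →ₗ[ℂ] K}
    {π : A ⊗[ℂ] B →⋆ₙₐ[ℂ] (K →L[ℂ] K)} (h : GnsData Φ η π) {G : A ⊗[ℂ] B →ₗ[ℂ] ℂ} (hG : Good G)
    {C : ℝ} (hC : ∀ z, (G (star z * z)).re ≤ C * (Φ (star z * z)).re) (y : A ⊗[ℂ] B) :
    (G (star y * y)).re ≤ ‖π y‖ ^ 2 := by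
  set s : A ⊗[ℂ] B := star y * y with hs1
  have hsa : star s = s := by rw [hs1, star_mul, star_star]
  have hπs : ‖π s‖ = ‖π y‖ ^ 2 := by
    rw [hs1, map_mul, map_star, CStarRing.norm_star_mul_self, sq]
  have key : ∀ c : ℝ, ‖π y‖ ^ 2 < c → (G s).re ≤ c := by
    intro c hc
    have hc0 : 0 < c := lt_of_le_of_lt (by positivity) hc
    have h1 : ∀ m, ‖η (hs s m)‖ * c ≤ ‖η s‖ * c ^ (2 ^ m) := by
      intro m
      induction m with
      | zero => simp [hs]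
      | succ m ih =>
        rw [hs, ← h.act]
        have h2 : ‖(π (hs s m)) (η (hs s m))‖ ≤ c ^ (2 ^ m) * ‖η (hs s m)‖ := by
          refine (ContinuousLinearMap.le_opNorm _ _).trans ?_
          gcongr
          rw [hs_map]
          refine (hs_norm _ _).trans ?_
          gcongr
          rw [hπs]; exact hc.le
        calc ‖(π (hs s m)) (η (hs s m))‖ * c ≤ c ^ (2 ^ m) * ‖η (hs s m)‖ * c := by gcongr
          _ = c ^ (2 ^ m) * (‖η (hs s m)‖ * c) := by ring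
          _ ≤ c ^ (2 ^ m) * (‖η s‖ * c ^ (2 ^ m)) := by gcongr
          _ = ‖η s‖ * c ^ (2 ^ (m + 1)) := by rw [pow_succ 2 m, pow_mul]; ring
    have h2 := power_trick (fun m => (G (hs s m)).re) 1 (|C| * (‖η s‖ / c) ^ 2) c zero_le_one hc0
      (fun m => ?_) (fun m => ?_)
    · rw [one_mul] at h2; exact h2
    · rw [one_mul]
      have h3 := hG.ctr (hs s m)
      rw [hs_star hsa] at h3
      refine le_trans ?_ h3
      rw [← sq_abs]
      have := Complex.abs_re_le_norm (G (hs s m))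
      gcongr
    · have h3 := hC (hs s m)
      rw [← h.norm_sq, hs_star hsa] at h3
      refine h3.trans ?_
      have h4 : ‖η (hs s m)‖ ≤ ‖η s‖ / c * c ^ (2 ^ m) := by
        rw [div_mul_eq_mul_div, le_div_iff₀ hc0]; exact h1 m
      calc C * ‖η (hs s m)‖ ^ 2 ≤ |C| * (‖η s‖ / c * c ^ (2 ^ m)) ^ 2 := by
            gcongr
            exact le_abs_self C
        _ = |C| * (‖η s‖ / c) ^ 2 * c ^ (2 ^ (m + 1)) := by
            rw [mul_pow, ← pow_mul, pow_succ 2 m]; ring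
  exact le_of_forall_gt_imp_ge_of_dense key

theorem GnsData.le {a : Tm → A} {b : Tm → B} (ha : TRep a) (hb : TRep b)
    (hd : ∀ G : A ⊗[ℂ] B →ₗ[ℂ] ℂ, Good G → ∀ (P : Finset (Tm × Tm)) (ε : ℝ), 0 < ε →
        ∃ n, ∀ q ∈ P, ‖F n (a q.1 ⊗ₜ b q.2) - G (a q.1 ⊗ₜ b q.2)‖ < ε)
    {K : Type u} [NormedAddCommGroup K]
    [InnerProductSpace ℂ K] [CompleteSpace K] {η : A ⊗[ℂ] B →ₗ[ℂ] K}
    {π : A ⊗[ℂ] B →⋆ₙₐ[ℂ] (K →L[ℂ] K)} (h : GnsData (PhiF F hF) η π)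
    {G : A ⊗[ℂ] B →ₗ[ℂ] ℂ} (hG : Good G) (y : A ⊗[ℂ] B) :
    (G (star y * y)).re ≤ ‖π y‖ ^ 2 := by
  classical
  have h1 : ∀ n y, (F n (star y * y)).re ≤ ‖π y‖ ^ 2 := fun n y =>
    h.dom (hF n) (fun z => PhiF_dom F hF n z) y
  have h2 : ∀ {m : ℕ} (u : Fin m → Tm × Tm),
      (G (star (∑ i, a (u i).1 ⊗ₜ[ℂ] b (u i).2) * ∑ i, a (u i).1 ⊗ₜ[ℂ] b (u i).2)).re ≤
        ‖π (∑ i, a (u i).1 ⊗ₜ[ℂ] b (u i).2)‖ ^ 2 := by
    intro m u
    refine le_of_forall_pos_le_add fun ε hε => ?_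
    let P : Finset (Tm × Tm) := (Finset.univ : Finset (Fin m × Fin m)).image fun q =>
      ((Tm.mul (.star (u q.1).1) (u q.2).1), (Tm.mul (.star (u q.1).2) (u q.2).2))
    obtain ⟨n, hn⟩ := hd G hG P (ε / ((m : ℝ) * m + 1)) (by positivity)
    have h3 := h1 n (∑ i, a (u i).1 ⊗ₜ[ℂ] b (u i).2)
    rw [← Good.QF_eq ha hb (F n) u] at h3
    rw [← Good.QF_eq ha hb G u]
    have h4 : ‖QF (fun s t => F n (a s ⊗ₜ b t)) u - QF (fun s t => G (a s ⊗ₜ b t)) u‖ ≤ ε := by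
      unfold QF
      rw [← Finset.sum_sub_distrib]
      simp only [← Finset.sum_sub_distrib]
      refine (norm_sum_le _ _).trans ?_
      refine (Finset.sum_le_sum fun i _ => norm_sum_le _ _).trans ?_
      refine (Finset.sum_le_sum fun i _ => Finset.sum_le_sum fun j _ =>
        (hn _ (Finset.mem_image.2 ⟨(i, j), Finset.mem_univ _, rfl⟩)).le).trans ?_
      simp only [Finset.sum_const, Finset.card_univ, Fintype.card_fin, nsmul_eq_mul]
      rw [← mul_assoc, mul_div_assoc', div_le_iff₀ (by positivity)]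
      nlinarith
    have h5 := (Complex.abs_re_le_norm _).trans h4
    rw [Complex.sub_re] at h5
    have h6 := abs_le.1 h5
    linarith [h6.1]
  obtain ⟨m, x, w, rfl⟩ := TensorProduct.exists_sum_tmul_eq y
  have hc1 : Continuous fun z : A × B => G (z.1 ⊗ₜ z.2) :=
    cont_tmul G 1 fun x y => by rw [one_mul]; exact hG.bound x y
  have hc2 : Continuous fun z : A × B => π (z.1 ⊗ₜ z.2) :=
    cont_tmul (π : A ⊗[ℂ] B →ₗ[ℂ] (K →L[ℂ] K)) 1 fun x y => by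
      rw [one_mul]; exact h.norm_le x y
  have hc3 : Continuous fun z : (Fin m → A) × (Fin m → B) =>
      (G (star (∑ i, z.1 i ⊗ₜ[ℂ] z.2 i) * ∑ i, z.1 i ⊗ₜ[ℂ] z.2 i)).re := by
    simp only [star_mul_sum, map_sum]
    refine Complex.continuous_re.comp ?_
    refine continuous_finsetSum _ fun i _ => continuous_finsetSum _ fun j _ => ?_
    exact hc1.comp (f := fun z : (Fin m → A) × (Fin m → B) =>
      (star (z.1 i) * z.1 j, star (z.2 i) * z.2 j)) (by fun_prop)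
  have hc4 : Continuous fun z : (Fin m → A) × (Fin m → B) =>
      ‖π (∑ i, z.1 i ⊗ₜ[ℂ] z.2 i)‖ ^ 2 := by
    simp only [map_sum]
    refine (continuous_norm.comp ?_).pow 2
    refine continuous_finsetSum _ fun i _ => ?_
    exact hc2.comp (f := fun z : (Fin m → A) × (Fin m → B) => (z.1 i, z.2 i)) (by fun_prop)
  have hdd : DenseRange (Prod.map (Pi.map fun _ : Fin m => a) (Pi.map fun _ : Fin m => b)) :=
    (DenseRange.piMap fun _ => ha.dense).prodMap (DenseRange.piMap fun _ => hb.dense)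
  have := hdd.induction_on (p := fun z : (Fin m → A) × (Fin m → B) =>
    (G (star (∑ i, z.1 i ⊗ₜ[ℂ] z.2 i) * ∑ i, z.1 i ⊗ₜ[ℂ] z.2 i)).re ≤
      ‖π (∑ i, z.1 i ⊗ₜ[ℂ] z.2 i)‖ ^ 2) (x, w) (isClosed_le hc3 hc4) (by
    rintro ⟨u, v⟩
    exact h2 fun i => (u i, v i))
  exact this

/-- the universal representation dominates every C*-norm -/
theorem GnsData.norm_dom {a : Tm → A} {b : Tm → B} (ha : TRep a) (hb : TRep b)
    (hd : ∀ G : A ⊗[ℂ] B →ₗ[ℂ] ℂ, Good G → ∀ (P : Finset (Tm × Tm)) (ε : ℝ), 0 < ε →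
        ∃ n, ∀ q ∈ P, ‖F n (a q.1 ⊗ₜ b q.2) - G (a q.1 ⊗ₜ b q.2)‖ < ε)
    {K : Type u} [NormedAddCommGroup K]
    [InnerProductSpace ℂ K] [CompleteSpace K] {η : A ⊗[ℂ] B →ₗ[ℂ] K}
    {π : A ⊗[ℂ] B →⋆ₙₐ[ℂ] (K →L[ℂ] K)} (h : GnsData (PhiF F hF) η π)
    {p : A ⊗[ℂ] B → ℝ} (hp : IsCStarNorm p) (y : A ⊗[ℂ] B) : p y ≤ ‖π y‖ := by
  obtain ⟨G, hG, hGy⟩ := exists_good_of_norm hp y
  have h1 := h.le F hF ha hb hd hG y
  rw [hGy] at h1
  exact le_of_sq_le_sq h1 (norm_nonneg _)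

end fixed

end Pool.Agent.H658.MT
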