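import Mathlib

/-! # The Borel structure of the weak operator topology -/

set_option autoImplicit false

open Set Filter Topology
open scoped InnerProductSpace

set_option linter.unusedSectionVars false

namespace Pool.Agent.H658.MT

variable {H : Type*} [NormedAddCommGroup H] [InnerProductSpace ℂ H] [CompleteSpace H]

/-- the weak operator topology on `B(H)` -/
@[reducible]
noncomputable def wot : TopologicalSpace (H →L[ℂ] H) :=
  TopologicalSpace.induced (fun (T : H →L[ℂ] H) (q : H × H) => ⟪q.1, T q.2⟫_ℂ) inferInstance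

/-- The Borel structure of the weak operator topology on `B(H)`. -/
@[reducible]
noncomputable def wotBorel : MeasurableSpace (H →L[ℂ] H) := @borel (H →L[ℂ] H) wot

theorem measurable_coeff (ξ η : H) :
    @Measurable (H →L[ℂ] H) ℂ wotBorel _ (fun T => ⟪ξ, T η⟫_ℂ) := by
  refine @measurable_of_isOpen _ _ _ _ _ wotBorel _ fun s hs => ?_
  refine MeasurableSpace.measurableSet_generateFrom ?_
  have h1 : IsOpen ((fun g : H × H → ℂ => g (ξ, η)) ⁻¹' s) := hs.preimage (continuous_apply _)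
  exact ⟨_, h1, rfl⟩

variable [TopologicalSpace.SeparableSpace H]

/-- all matrix coefficients are measurable -/
def CM {X : Type*} [MeasurableSpace X] (f : X → H →L[ℂ] H) : Prop :=
  ∀ ξ η : H, Measurable fun x => ⟪ξ, f x η⟫_ℂ

section
variable {X : Type*} [MeasurableSpace X]

theorem norm_le_iff_coeff (T : H →L[ℂ] H) {r : ℝ} (hr : 0 ≤ r) :
    ‖T‖ ≤ r ↔ ∀ i j : ℕ, ‖⟪TopologicalSpace.denseSeq H i, T (TopologicalSpace.denseSeq H j)⟫_ℂ‖ ≤
      r * ‖TopologicalSpace.denseSeq H i‖ * ‖TopologicalSpace.denseSeq H j‖ := by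
  constructor
  · intro h i j
    calc ‖⟪TopologicalSpace.denseSeq H i, T (TopologicalSpace.denseSeq H j)⟫_ℂ‖
        ≤ ‖TopologicalSpace.denseSeq H i‖ * ‖T (TopologicalSpace.denseSeq H j)‖ :=
          norm_inner_le_norm _ _
      _ ≤ ‖TopologicalSpace.denseSeq H i‖ * (r * ‖TopologicalSpace.denseSeq H j‖) := by
          gcongr
          exact T.le_of_opNorm_le h _
      _ = _ := by ring
  · intro h
    have h1 : ∀ x y : H, ‖⟪x, T y⟫_ℂ‖ ≤ r * ‖x‖ * ‖y‖ := by
      intro x y
      have hd := TopologicalSpace.denseRange_denseSeq H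
      refine hd.induction_on x ?_ fun i => ?_
      · exact isClosed_le (by fun_prop) (by fun_prop)
      · refine hd.induction_on y ?_ fun j => h i j
        exact isClosed_le (by fun_prop) (by fun_prop)
    refine T.opNorm_le_bound hr fun y => ?_
    by_cases h0 : ‖T y‖ = 0
    · rw [h0]; positivity
    have h2 := h1 (T y) y
    rw [inner_self_eq_norm_sq_to_K] at h2
    simp only [norm_pow, Complex.norm_real, norm_norm, Complex.coe_algebraMap] at h2
    have h3 : 0 < ‖T y‖ := lt_of_le_of_ne (norm_nonneg _) (Ne.symm h0)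
    nlinarith

theorem CM.norm {f : X → H →L[ℂ] H} (hf : CM f) : Measurable fun x => ‖f x‖ := by
  refine measurable_of_Iic fun r => ?_
  by_cases hr : 0 ≤ r
  · have : (fun x => ‖f x‖) ⁻¹' Iic r = ⋂ i : ℕ, ⋂ j : ℕ,
        {x | ‖⟪TopologicalSpace.denseSeq H i, f x (TopologicalSpace.denseSeq H j)⟫_ℂ‖ ≤
          r * ‖TopologicalSpace.denseSeq H i‖ * ‖TopologicalSpace.denseSeq H j‖} := by
      ext x
      simp only [mem_preimage, mem_Iic, mem_iInter, mem_ofPred_eq]
      exact norm_le_iff_coeff _ hr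
    rw [this]
    exact MeasurableSet.iInter fun i => MeasurableSet.iInter fun j =>
      measurableSet_le (hf _ _).norm measurable_const
  · have : (fun x => ‖f x‖) ⁻¹' Iic r = ∅ := by
      ext x
      simp only [mem_preimage, mem_Iic, mem_empty_iff_false, iff_false, not_le]
      exact lt_of_lt_of_le (not_le.1 hr) (norm_nonneg _)
    rw [this]
    exact MeasurableSet.empty

theorem CM.add {f g : X → H →L[ℂ] H} (hf : CM f) (hg : CM g) : CM fun x => f x + g x := by
  intro ξ η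
  simp only [add_apply, inner_add_right]
  exact (hf ξ η).add (hg ξ η)

theorem CM.smul {f : X → H →L[ℂ] H} (hf : CM f) (c : ℂ) : CM fun x => c • f x := by
  intro ξ η
  simp only [smul_apply, inner_smul_right]
  exact (hf ξ η).const_mul c

theorem CM.adj {f : X → H →L[ℂ] H} (hf : CM f) : CM fun x => star (f x) := by
  intro ξ η
  have : (fun x => ⟪ξ, (star (f x)) η⟫_ℂ) = fun x => (starRingEnd ℂ) ⟪η, f x ξ⟫_ℂ := by
    ext x
    rw [ContinuousLinearMap.star_eq_adjoint, ContinuousLinearMap.adjoint_inner_right,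
      inner_conj_symm]
  rw [this]
  exact Complex.continuous_conj.measurable.comp (hf η ξ)

theorem CM.mul (b : HilbertBasis ℕ ℂ H) {f g : X → H →L[ℂ] H} (hf : CM f) (hg : CM g) :
    CM fun x => f x * g x := by
  intro ξ η
  have h1 : ∀ x, HasSum (fun n => ⟪ξ, f x (b n)⟫_ℂ * ⟪b n, g x η⟫_ℂ) ⟪ξ, (f x * g x) η⟫_ℂ := by
    intro x
    have := b.hasSum_inner_mul_inner (star (f x) ξ) (g x η)
    simp only [ContinuousLinearMap.star_eq_adjoint, ContinuousLinearMap.adjoint_inner_left] at this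
    exact this
  refine measurable_of_tendsto_metrizable (f := fun N x => ∑ n ∈ Finset.range N,
    ⟪ξ, f x (b n)⟫_ℂ * ⟪b n, g x η⟫_ℂ) ?_ ?_
  · intro N
    exact Finset.measurable_sum _ fun n _ => (hf _ _).mul (hg _ _)
  · rw [tendsto_pi_nhds]
    intro x
    exact (h1 x).tendsto_sum_nat

theorem CM.of_basis (b : HilbertBasis ℕ ℂ H) {f : X → H →L[ℂ] H}
    (h : ∀ m n, Measurable fun x => ⟪b m, f x (b n)⟫_ℂ) : CM f := by
  have h1 : ∀ (m : ℕ) (η : H), Measurable fun x => ⟪b m, f x η⟫_ℂ := by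
    intro m η
    have h2 : ∀ x, HasSum (fun n => ⟪b m, f x (b n)⟫_ℂ * ⟪b n, η⟫_ℂ) ⟪b m, f x η⟫_ℂ := by
      intro x
      have := b.hasSum_inner_mul_inner (star (f x) (b m)) η
      simp only [ContinuousLinearMap.star_eq_adjoint,
        ContinuousLinearMap.adjoint_inner_left] at this
      exact this
    refine measurable_of_tendsto_metrizable (f := fun N x => ∑ n ∈ Finset.range N,
      ⟪b m, f x (b n)⟫_ℂ * ⟪b n, η⟫_ℂ) ?_ ?_
    · intro N
      exact Finset.measurable_sum _ fun n _ => (h _ _).mul_const _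
    · rw [tendsto_pi_nhds]
      intro x
      exact (h2 x).tendsto_sum_nat
  intro ξ η
  have h2 : ∀ x, HasSum (fun n => ⟪ξ, b n⟫_ℂ * ⟪b n, f x η⟫_ℂ) ⟪ξ, f x η⟫_ℂ := fun x =>
    b.hasSum_inner_mul_inner ξ (f x η)
  refine measurable_of_tendsto_metrizable (f := fun N x => ∑ n ∈ Finset.range N,
    ⟪ξ, b n⟫_ℂ * ⟪b n, f x η⟫_ℂ) ?_ ?_
  · intro N
    exact Finset.measurable_sum _ fun n _ => (h1 _ _).const_mul _
  · rw [tendsto_pi_nhds]
    intro x
    exact (h2 x).tendsto_sum_nat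

theorem CM.measurable {f : X → H →L[ℂ] H} (hf : CM f) : @Measurable _ _ _ wotBorel f := by
  refine @measurable_generateFrom _ _ _ _ _ ?_
  intro U hU
  let D := TopologicalSpace.denseSeq H
  let E : (H →L[ℂ] H) → ℕ × ℕ → ℂ := fun T p => ⟪D p.1, T (D p.2)⟫_ℂ
  have hE : Measurable fun x => E (f x) := measurable_pi_lambda _ fun p => hf _ _
  have key : ∀ N : ℕ, ∃ V : Set (ℕ × ℕ → ℂ), IsOpen V ∧
      ∀ T : H →L[ℂ] H, ‖T‖ ≤ N → (T ∈ U ↔ E T ∈ V) := by
    intro N
    let B : Type _ := {T : H →L[ℂ] H // ‖T‖ ≤ N}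
    let E' : B → ℕ × ℕ → ℂ := fun T => E T.1
    let τ : TopologicalSpace B := TopologicalSpace.induced E' inferInstance
    have hE' : Continuous E' := continuous_induced_dom
    have hcoef : ∀ q : H × H, Continuous fun T : B => ⟪q.1, T.1 q.2⟫_ℂ := by
      intro q
      refine continuous_of_uniform_approx_of_continuous fun u hu => ?_
      obtain ⟨ε, hε, hu2⟩ := Metric.mem_uniformity_dist.1 hu
      have hlim : Tendsto (fun p : H × H => ‖q.1 - p.1‖ * (N * ‖q.2‖) + ‖p.1‖ * (N * ‖q.2 - p.2‖))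
          (𝓝 q) (𝓝 0) := by
        have : Continuous fun p : H × H =>
            ‖q.1 - p.1‖ * (N * ‖q.2‖) + ‖p.1‖ * (N * ‖q.2 - p.2‖) := by fun_prop
        have h2 := this.tendsto q
        simpa using h2
      have hd : DenseRange (Prod.map D D) :=
        (TopologicalSpace.denseRange_denseSeq H).prodMap (TopologicalSpace.denseRange_denseSeq H)
      have hev := (hlim.eventually (gt_mem_nhds hε))
      obtain ⟨⟨i, j⟩, hij⟩ := hd.exists_mem_open isOpen_interior
        (⟨q, mem_interior_iff_mem_nhds.2 hev⟩ : (interior {p : H × H |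
          ‖q.1 - p.1‖ * (N * ‖q.2‖) + ‖p.1‖ * (N * ‖q.2 - p.2‖) < ε}).Nonempty)
      have hij2 := interior_subset hij
      simp only [mem_ofPred_eq, Prod.map_apply] at hij2
      refine ⟨fun T : B => E' T (i, j), (continuous_apply (i, j)).comp hE', fun T => ?_⟩
      apply hu2
      rw [dist_eq_norm]
      refine lt_of_le_of_lt ?_ hij2
      have hT := T.2
      calc ‖⟪q.1, T.1 q.2⟫_ℂ - ⟪D i, T.1 (D j)⟫_ℂ‖
          = ‖⟪q.1 - D i, T.1 q.2⟫_ℂ + ⟪D i, T.1 (q.2 - D j)⟫_ℂ‖ := by
            rw [inner_sub_left, map_sub, inner_sub_right]; congr 1; ring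
        _ ≤ ‖⟪q.1 - D i, T.1 q.2⟫_ℂ‖ + ‖⟪D i, T.1 (q.2 - D j)⟫_ℂ‖ := norm_add_le _ _
        _ ≤ ‖q.1 - D i‖ * ‖T.1 q.2‖ + ‖D i‖ * ‖T.1 (q.2 - D j)‖ :=
            add_le_add (norm_inner_le_norm _ _) (norm_inner_le_norm _ _)
        _ ≤ ‖q.1 - D i‖ * (N * ‖q.2‖) + ‖D i‖ * (N * ‖q.2 - D j‖) := by
            gcongr
            · exact T.1.le_of_opNorm_le hT _
            · exact T.1.le_of_opNorm_le hT _
    have hid : @Continuous B (H →L[ℂ] H) τ wot (fun T => T.1) := by
      exact continuous_induced_rng.2 (continuous_pi fun q => hcoef q)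
    have hU' : IsOpen {T : B | T.1 ∈ U} := @IsOpen.preimage _ _ τ wot _ hid _ hU
    obtain ⟨V, hV, hVU⟩ := isOpen_induced_iff.1 hU'
    refine ⟨V, hV, fun T hT => ?_⟩
    have := Set.ext_iff.1 hVU ⟨T, hT⟩
    exact this.symm
  choose V hV hVU using key
  have : f ⁻¹' U = ⋃ N : ℕ, {x | ‖f x‖ ≤ N} ∩ (fun x => E (f x)) ⁻¹' (V N) := by
    ext x
    simp only [mem_preimage, mem_iUnion, mem_inter_iff, mem_ofPred_eq]
    constructor
    · intro h
      obtain ⟨N, hN⟩ := exists_nat_ge ‖f x‖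
      exact ⟨N, hN, (hVU N _ hN).1 h⟩
    · rintro ⟨N, hN, h⟩
      exact (hVU N _ hN).2 h
  rw [this]
  exact MeasurableSet.iUnion fun N => (measurableSet_le hf.norm measurable_const).inter
    (hE (hV N).measurableSet)

end

end Pool.Agent.H658.MT
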